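import Mathlib
import Pool.Agent.V5helper44.SimZk
import Pool.Agent.R352.Q.Three
import Pool.Agent.Q163.LE.Sim

set_option autoImplicit false

/-!
# Every single `t(n) = ζ(2n) / ζ(n)²`, over fields of Liouville numbers extended by `e`

Let `t(n) = ζ(2n) / ζ(n)²`. The statements here concern every odd integer `n ≥ 3` (not only the large ones).

For `k ≥ 2` and a positive rational number `x` let `R_k(x)` be the number
`(-1)^k / k! * ∫ (∑_j ω^j log t_j)^k exp (-∑_j t_j) dt`, the integral being over `(0, ∞)^k \ (0, x)^k`,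
`ω = exp (2 π i / k)`. It is the tail of an integral for `ζ(k)`: the same integral over `(0, ∞)^k` is `ζ(k)`.
So `R_3(x) = 1/12 * ∫ log (t_1 t_2 / t_3²)³ exp (-t_1 - t_2 - t_3) dt`, the integral being over the points of
the positive octant with `max t_i ≥ x`.

A field `F` of real numbers is simultaneously Liouville if for any finitely many elements
`x_1, …, x_m` of `F` and any `w` there are arbitrarily large `q` with `‖q x_i‖ < q ^ (-w)` for all
`i`. Besides `ℚ` such fields are, for instance, (a) for a sequence `T_n → ∞` the field of all real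
numbers `x` which for one `A` and for all `E` have rational approximations of height at most
`exp (A T_n)` with an error at most `exp (-E T_n)` for all large `n`, and (b) for an infinite set `S` of
integers the field generated by all real numbers `x` whose first `N` digits in some base have a
partition into `o (log N)` phrases (`N ∈ S`), each of which is a digit or a copy of a block which
begins earlier.

Let `F` be a simultaneously Liouville field.

(1) Let `N` be a finite set of odd integers `n ≥ 3`. At most `|N| + 1` of the numbers `π`, `t(n)` (`n ∈ N`)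
and `R_k(x)` (`k ∈ N` or `k ≥ 2` even, `x` positive rational) are algebraic over `F(e)`. In particular for
every odd `n ≥ 3`: at most two of the numbers `t(n)`, `π`, `R_n(x)`, `R_2(x)`, `R_4(x)`, … (`x` positive
rational) are algebraic over `F(e)`; if `t(n)` is algebraic over `F(e)` (for instance rational), at most one of
the others is.

(2) Let `N` be any, possibly infinite, set of odd integers `n ≥ 3` such that all `t(n)`, `n ∈ N`, are
algebraic over `F(e)`. Then at most one of the numbers `π` and `R_k(x)` (`k ∈ N` or `k ≥ 2` even, `x`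
positive rational) is algebraic over `F(e)`, and for `m` different ones `R_{k_i}(x_i)` of these numbers the
transcendence degree of `F(e, π, R_{k_1}(x_1), …, R_{k_m}(x_m))` over `F` is at least `m + 1`. So, if `t(n)` is
rational for all `n ∈ N`, and one of the numbers `π`, `R_k(x)` is algebraic over `F(e)`, then `e` and the
others `R_k(x)` are algebraically independent over `F`.

(3) More generally, let `y_1, …, y_r` be real numbers and `N` a set of odd integers `n ≥ 3` for which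
`t(n)` is algebraic over `F(e, π, y_1, …, y_r)`. At most `r + 1` of the numbers `π`, `y_1, …, y_r` and `R_k(x)`
(`k ∈ N` or `k ≥ 2` even, `x` positive rational) are algebraic over `F(e)`, and the field
`F(e, π, y_1, …, y_r, R_{k_1}(x_1), …, R_{k_m}(x_m))` has transcendence degree at least `m + 1` over `F`.
-/

namespace Pool.Agent.Results.MP_f1a024_nt.TailsAndRatios

open Filter Topology Set MeasureTheory Pool.Agent.Q163.LE

/-- the field generated by all real numbers `x` such that, for some base `b`,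
`phrases b x N / log N` tends to `0` as `N` tends to infinity in `S` -/
noncomputable def field (S : Set ℕ) : Subfield ℝ := Subfield.closure {x : ℝ | ∃ b : ℕ, 2 ≤ b ∧
  Tendsto (fun N : ℕ => (phrases b x N : ℝ) / Real.log N) (atTop ⊓ 𝓟 S) (𝓝 0)}

/-- the zeta value `ζ(s) = ∑ 1 / n^s` -/
noncomputable def zeta (s : ℕ) : ℝ := ∑' n : ℕ, 1 / ((n : ℝ) + 1) ^ s

/-- `t(n) = ζ(2n) / ζ(n)^2` -/
noncomputable def ratio (n : ℕ) : ℝ := zeta (2 * n) / zeta n ^ 2

/-- `ω = exp (2 π i / k)` -/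
noncomputable def root (k : ℕ) : ℂ := Complex.exp (2 * Real.pi * Complex.I / k)

/-- `(∑_j ω^j log t_j)^k exp (-∑_j t_j)` -/
noncomputable def integrand (k : ℕ) (t : Fin k → ℝ) : ℂ :=
  (∑ j : Fin k, root k ^ (j : ℕ) * (Real.log (t j) : ℂ)) ^ k * ((Real.exp (-∑ j, t j) : ℝ) : ℂ)

/-- the octant `(0, ∞)^k` -/
def octant (k : ℕ) : Set (Fin k → ℝ) := {t | ∀ j, 0 < t j}

/-- `(0, ∞)^k \ (0, x)^k` -/
def rest (k : ℕ) (x : ℝ) : Set (Fin k → ℝ) := {t | (∀ j, 0 < t j) ∧ ∃ j, x ≤ t j}

/-- the integral over the rest of the octant, as a complex number -/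
noncomputable def tailIntegral (k : ℕ) (x : ℚ) : ℂ := (-1) ^ k / k.factorial * ∫ t in rest k x, integrand k t

/-- `R_k(x)` -/
noncomputable def R (k : ℕ) (x : ℚ) : ℝ := (tailIntegral k x).re

/-- `x` is algebraic over the field generated by `A` over `F` -/
def AlgOver (F : Subfield ℝ) (A : Set ℝ) (x : ℝ) : Prop := IsAlgebraic (IntermediateField.adjoin F A) x

/-- the elements of `N` and the even integers `k ≥ 2` -/
def withEven (N : Set ℕ) : Set ℕ := N ∪ {k | 2 ≤ k ∧ Even k}

/-- the set of names of those of the numbers `y_1, …, y_r` and `R_k(x)` (`k ∈ K`, `x` positive rational)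
which are algebraic over `F(e)` -/
def algebraicNames (F : Subfield ℝ) {r : ℕ} (y : Fin r → ℝ) (K : Set ℕ) : Set (Fin r ⊕ (ℕ × ℚ)) :=
  {i | Sum.elim (fun j => AlgOver F {Real.exp 1} (y j))
    (fun p => p.1 ∈ K ∧ 0 < p.2 ∧ AlgOver F {Real.exp 1} (R p.1 p.2)) i}

/-- the set of names of those of the numbers `π`, `t(n)` (`n ∈ N`) and `R_k(x)` (`k ∈ N` or `k ≥ 2` even, `x`
positive rational) which are algebraic over `F(e)` -/
def ratioNames (F : Subfield ℝ) (N : Set ℕ) : Set (Option ℕ ⊕ (ℕ × ℚ)) :=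
  {i | Sum.elim
    (fun o => o.elim (AlgOver F {Real.exp 1} Real.pi) fun n => n ∈ N ∧ AlgOver F {Real.exp 1} (ratio n))
    (fun p => p.1 ∈ withEven N ∧ 0 < p.2 ∧ AlgOver F {Real.exp 1} (R p.1 p.2)) i}

theorem rest_eq (k : ℕ) (x : ℝ) :
    rest k x = Pool.Agent.R352.Q.cube k (Ioi 0) \ Pool.Agent.R352.Q.cube k (Ioo 0 x) := by
  ext t
  simp only [rest, Pool.Agent.R352.Q.cube, Set.mem_sdiff, mem_univ_pi, mem_Ioi, mem_Ioo]
  constructor
  · rintro ⟨h1, j, h2⟩
    exact ⟨h1, fun h => absurd (h j).2 (not_lt.2 h2)⟩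
  · rintro ⟨h1, h2⟩
    push Not at h2
    obtain ⟨j, hj⟩ := h2
    exact ⟨h1, j, hj (h1 j)⟩

theorem octant_eq (k : ℕ) : octant k = Pool.Agent.R352.Q.cube k (Ioi 0) := by
  ext t
  simp [octant, Pool.Agent.R352.Q.cube]

theorem tailIntegral_eq {k : ℕ} (hk : 2 ≤ k) {x : ℚ} (hx : 0 < x) :
    tailIntegral k x = (Pool.Agent.R352.Q.Rk k x : ℂ) := by
  have hx' : (0 : ℝ) < x := by exact_mod_cast hx
  have h : tailIntegral k x = Pool.Agent.R352.Q.NI k
      (Pool.Agent.R352.Q.cube k (Ioi 0) \ Pool.Agent.R352.Q.cube k (Ioo 0 x)) := by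
    rw [tailIntegral, rest_eq]
    rfl
  rw [h, Pool.Agent.R352.Q.NI_diff, Pool.Agent.R352.Q.NI_full hk, Pool.Agent.R352.Q.NI_box hk hx',
    Pool.Agent.R352.Q.Rk]
  push_cast
  rfl

theorem full_eq {k : ℕ} (hk : 2 ≤ k) :
    (-1) ^ k / k.factorial * ∫ t in octant k, integrand k t = (zeta k : ℂ) := by
  have h := Pool.Agent.R352.Q.NI_full hk
  rw [octant_eq]
  exact h

theorem R_eq {k : ℕ} (hk : 2 ≤ k) {x : ℚ} (hx : 0 < x) : R k x = Pool.Agent.V5helper44.SimZk.RR k x := by
  rw [R, Pool.Agent.V5helper44.SimZk.RR, Pool.Agent.V5helper44.SimZk.cst, Pool.Agent.V5helper44.SimZk.CC,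
    if_neg (by omega), if_neg (by omega), tailIntegral_eq hk hx, Complex.ofReal_re, Pool.Agent.R352.Q.Rk]

theorem three {x : ℚ} (hx : 0 < x) :
    R 3 x = 1 / 12 * ∫ t in rest 3 x, Real.log (t 0 * t 1 / t 2 ^ 2) ^ 3 * Real.exp (-(t 0 + t 1 + t 2)) := by
  have hx' : (0 : ℝ) < x := by exact_mod_cast hx
  have h : R 3 x = Pool.Agent.R352.Q.Rk 3 x := by
    rw [R, tailIntegral_eq (by norm_num) hx, Complex.ofReal_re]
  rw [rest_eq, Pool.Agent.R352.Q.three_rest hx', h]
  ring

theorem zeta_pos {s : ℕ} (hs : 2 ≤ s) : 0 < zeta s := by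
  have h1 : Summable (fun n : ℕ => 1 / ((n : ℝ) + 1) ^ s) := by
    have h := (summable_nat_add_iff 1).2 (Real.summable_one_div_nat_pow.2 (by omega : 1 < s))
    simpa using h
  refine h1.tsum_pos (fun n => by positivity) 0 (by positivity)

theorem cst_eq {k : ℕ} (hk : 2 ≤ k) : Pool.Agent.V5helper44.SimZk.cst k = zeta k := by
  rw [Pool.Agent.V5helper44.SimZk.cst, if_neg (by omega)]
  rfl

/-- the zeta values are algebraic over `F(e, π, y_1, …, y_r)` -/
theorem zeta_mem {F : Subfield ℝ} {r : ℕ} (y : Fin r → ℝ) (N : Set ℕ) (hN : ∀ n ∈ N, 3 ≤ n)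
    (hy : ∀ n ∈ N, AlgOver F ({Real.exp 1} ∪ range (Fin.cons (α := fun _ => ℝ) Real.pi y)) (ratio n))
    {k : ℕ} (hk : k ∈ withEven N) : 2 ≤ k ∧
      Pool.Agent.V5helper44.SimZk.cst k ∈ Pool.Agent.R352.E.clF
        ((F : Set ℝ) ∪ ({Real.exp 1} ∪ range (Fin.cons (α := fun _ => ℝ) Real.pi y))) := by
  set T : Set ℝ := (F : Set ℝ) ∪ ({Real.exp 1} ∪ range (Fin.cons (α := fun _ => ℝ) Real.pi y)) with hT
  have hpi : Real.pi ∈ Pool.Agent.R352.E.clF T :=
    Pool.Agent.R352.E.subset_clF _ (Or.inr (Or.inr ⟨0, rfl⟩))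
  have hev : ∀ j : ℕ, j ≠ 0 → zeta (2 * j) ∈ Pool.Agent.R352.E.clF T := fun j hj =>
    Pool.Agent.R352.E.zt_even hpi j hj
  rcases hk with hk | ⟨h2, j, hj⟩
  · have h3 := hN k hk
    refine ⟨by omega, ?_⟩
    rw [cst_eq (by omega)]
    have h4 : ratio k ∈ Pool.Agent.R352.E.clF T := Pool.Agent.V5helper44.SimMat.mem_cF_iff.2 (hy k hk)
    have h5 : zeta k ^ 2 = zeta (2 * k) / ratio k := by
      have := (zeta_pos (show 2 ≤ k by omega)).ne'
      have := (zeta_pos (show 2 ≤ 2 * k by omega)).ne'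
      rw [ratio]
      field_simp
    have h6 : zeta k ^ 2 ∈ Pool.Agent.R352.E.clF T := by
      rw [h5]
      exact (Pool.Agent.R352.E.clF T).div_mem (hev k (by omega)) h4
    exact Pool.Agent.R352.E.of_pow (by norm_num) h6
  · refine ⟨h2, ?_⟩
    rw [cst_eq h2, show k = 2 * j by omega]
    exact hev j (by omega)

theorem main {F : Subfield ℝ} (hF : SimLiouville F) {r : ℕ} (y : Fin r → ℝ) (N : Set ℕ) (hN : ∀ n ∈ N, 3 ≤ n)
    (hy : ∀ n ∈ N, AlgOver F ({Real.exp 1} ∪ range (Fin.cons (α := fun _ => ℝ) Real.pi y)) (ratio n)) :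
    (algebraicNames F (Fin.cons (α := fun _ => ℝ) Real.pi y) (withEven N)).encard ≤ (r + 1 : ℕ) := by
  refine Pool.Agent.R352.E.encard_le_of_finset _ _ fun t ht => ?_
  refine Pool.Agent.V5helper44.SimZk.countRF hF (Fin.cons (α := fun _ => ℝ) Real.pi y) t (fun i hi => ?_)
    (fun p hp => ?_)
  · have h1 := ht hi
    cases i with
    | inl j => exact Pool.Agent.V5helper44.SimMat.mem_cF_iff.2 h1
    | inr p =>
      obtain ⟨h2, h3, h4⟩ := h1
      rw [R_eq (zeta_mem y N hN hy h2).1 h3] at h4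
      exact Pool.Agent.V5helper44.SimMat.mem_cF_iff.2 h4
  · obtain ⟨h2, h3, -⟩ := ht hp
    have h4 := zeta_mem y N hN hy h2
    exact ⟨by have := h4.1; omega, h3, h4.2⟩

theorem main_trdeg {F : Subfield ℝ} (hF : SimLiouville F) {r : ℕ} (y : Fin r → ℝ) (N : Set ℕ)
    (hN : ∀ n ∈ N, 3 ≤ n)
    (hy : ∀ n ∈ N, AlgOver F ({Real.exp 1} ∪ range (Fin.cons (α := fun _ => ℝ) Real.pi y)) (ratio n))
    (S : Finset (ℕ × ℚ)) (hS : ∀ p ∈ S, p.1 ∈ withEven N ∧ 0 < p.2) :
    ((S.card + 1 : ℕ) : Cardinal) ≤ Algebra.trdeg F (IntermediateField.adjoin F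
      ({Real.exp 1} ∪ range (Fin.cons (α := fun _ => ℝ) Real.pi y) ∪
        (fun p : ℕ × ℚ => R p.1 p.2) '' (S : Set (ℕ × ℚ)))) := by
  have h := Pool.Agent.V5helper44.SimZk.trdegRF hF (Fin.cons (α := fun _ => ℝ) Real.pi y) S fun p hp =>
    ⟨by have := (zeta_mem y N hN hy (hS p hp).1).1; omega, (hS p hp).2, (zeta_mem y N hN hy (hS p hp).1).2⟩
  have e : (fun p : ℕ × ℚ => R p.1 p.2) '' (S : Set (ℕ × ℚ)) =
      (fun p : ℕ × ℚ => Pool.Agent.V5helper44.SimZk.RR p.1 p.2) '' (S : Set (ℕ × ℚ)) := by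
    refine image_congr fun p hp => ?_
    exact R_eq (zeta_mem y N hN hy (hS p hp).1).1 (hS p hp).2
  rw [e]
  exact h

/-- the finite version of the independence -/
theorem indep_fin {F : Subfield ℝ} (hF : SimLiouville F) (N : Set ℕ) (hN : ∀ n ∈ N, 3 ≤ n)
    (hy : ∀ n ∈ N, AlgOver F {Real.exp 1} (ratio n)) (p₀ : ℕ × ℚ) (h₀ : p₀.1 ∈ withEven N ∧ 0 < p₀.2)
    (h₁ : AlgOver F {Real.exp 1} (R p₀.1 p₀.2)) (S : Finset (ℕ × ℚ))
    (hS : ∀ p ∈ S, p.1 ∈ withEven N ∧ 0 < p.2) (hp₀ : p₀ ∉ S) :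
    AlgebraicIndependent F (fun o : Option (Option S) =>
      o.elim (Real.exp 1) fun q => q.elim Real.pi fun p => R p.1.1 p.1.2) := by
  classical
  have hy' : ∀ n ∈ N, AlgOver F ({Real.exp 1} ∪ range (Fin.cons (α := fun _ => ℝ) Real.pi (Fin.elim0 : Fin 0 → ℝ)))
      (ratio n) := fun n hn => by
    refine Pool.Agent.V5helper44.SimMat.mem_cF_iff.1 ?_
    exact Pool.Agent.R352.E.clF_mono (union_subset_union_right _ subset_union_left)
      (Pool.Agent.V5helper44.SimMat.mem_cF_iff.2 (hy n hn))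
  have hz := fun k hk => zeta_mem (Fin.elim0 : Fin 0 → ℝ) N hN hy' (k := k) hk
  have hgood : ∀ p ∈ insert p₀ S, p.1 ∈ withEven N ∧ 0 < p.2 := by
    intro p hp
    rcases Finset.mem_insert.1 hp with rfl | hp
    · exact h₀
    · exact hS p hp
  have hAI := Pool.Agent.V5helper44.SimZk.AI_subF hF (insert p₀ S) fun p hp =>
    ⟨by have := (hz _ (hgood p hp).1).1; omega, (hgood p hp).2⟩
  refine Pool.Agent.V5helper44.SimMat.indep_of_spanF hAI (fun o => ?_) ?_
  · set y : Option (Option S) → ℝ := fun o =>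
      o.elim (Real.exp 1) fun q => q.elim Real.pi fun p => R p.1.1 p.1.2 with hyy
    have he : Real.exp 1 ∈ Pool.Agent.R352.E.clF ((F : Set ℝ) ∪ range y) :=
      Pool.Agent.R352.E.subset_clF _ (Or.inr ⟨none, rfl⟩)
    have hpi : Real.pi ∈ Pool.Agent.R352.E.clF ((F : Set ℝ) ∪ range y) :=
      Pool.Agent.R352.E.subset_clF _ (Or.inr ⟨some none, rfl⟩)
    cases o with
    | none => exact he
    | some p =>
      have hp := hgood p.1 p.2
      refine Pool.Agent.V5helper44.SimZk.CC_mem ?_ ?_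
      · refine Pool.Agent.R352.E.clF_le ?_ (hz _ hp.1).2
        rintro z (hz' | hz' | ⟨j, rfl⟩)
        · exact Pool.Agent.R352.E.subset_clF _ (Or.inl hz')
        · rw [mem_singleton_iff] at hz'
          rw [hz']
          exact he
        · refine Fin.cases ?_ (fun i => i.elim0) j
          exact hpi
      · rw [← R_eq (hz _ hp.1).1 hp.2]
        rcases Finset.mem_insert.1 p.2 with h | h
        · rw [h]
          refine Pool.Agent.R352.E.clF_le ?_ (Pool.Agent.V5helper44.SimMat.mem_cF_iff.2 h₁)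
          rintro z (hz' | hz')
          · exact Pool.Agent.R352.E.subset_clF _ (Or.inl hz')
          · rw [mem_singleton_iff] at hz'
            rw [hz']
            exact he
        · exact Pool.Agent.R352.E.subset_clF _ (Or.inr ⟨some (some ⟨p.1, h⟩), rfl⟩)
  · simp [Finset.card_insert_of_notMem hp₀]

/-- the numbers `π` (name `none`) and `R_k(x)` (name `some (k, x)`) -/
noncomputable def val (o : Option (ℕ × ℚ)) : ℝ := o.elim Real.pi fun p => R p.1 p.2

/-- the names of `π` and of the numbers `R_k(x)` with `k ∈ K` and a positive rational number `x` -/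
def Names (K : Set ℕ) : Set (Option (ℕ × ℚ)) := {o | ∀ p ∈ o, p.1 ∈ K ∧ 0 < p.2}

theorem indep {F : Subfield ℝ} (hF : SimLiouville F) (N : Set ℕ) (hN : ∀ n ∈ N, 3 ≤ n)
    (hy : ∀ n ∈ N, AlgOver F {Real.exp 1} (ratio n)) (o₀ : Option (ℕ × ℚ)) (h₀ : o₀ ∈ Names (withEven N))
    (h₁ : AlgOver F {Real.exp 1} (val o₀)) :
    AlgebraicIndependent F (fun o : Option {o : Option (ℕ × ℚ) // o ∈ Names (withEven N) ∧ o ≠ o₀} =>
      o.elim (Real.exp 1) fun q => val q.1) := by
  classical
  cases o₀ with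
  | none =>
    have hy' : ∀ n ∈ N, AlgOver F ({Real.exp 1} ∪ range (Fin.cons (α := fun _ => ℝ) Real.pi (Fin.elim0 : Fin 0 → ℝ)))
        (ratio n) := fun n hn => by
      refine Pool.Agent.V5helper44.SimMat.mem_cF_iff.1 ?_
      exact Pool.Agent.R352.E.clF_mono (union_subset_union_right _ subset_union_left)
        (Pool.Agent.V5helper44.SimMat.mem_cF_iff.2 (hy n hn))
    have h := Pool.Agent.V5helper44.SimZk.AI_RF hF (withEven N) fun k hk => by
      have hz := zeta_mem (Fin.elim0 : Fin 0 → ℝ) N hN hy' (k := k) hk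
      refine ⟨by have := hz.1; omega, Pool.Agent.R352.E.clF_le ?_ hz.2⟩
      rintro z (hz' | hz' | ⟨j, rfl⟩)
      · exact Pool.Agent.R352.E.subset_clF _ (Or.inl hz')
      · exact Pool.Agent.R352.E.subset_clF _ (Or.inr hz')
      · refine Fin.cases ?_ (fun i => i.elim0) j
        exact Pool.Agent.V5helper44.SimMat.mem_cF_iff.2 h₁
    let g : {o : Option (ℕ × ℚ) // o ∈ Names (withEven N) ∧ o ≠ none} →
        {p : ℕ × ℚ // p.1 ∈ withEven N ∧ 0 < p.2} := fun o =>
      ⟨o.1.get (Option.isSome_iff_ne_none.2 o.2.2), o.2.1 _ (Option.get_mem _)⟩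
    have hg : Function.Injective g := by
      intro a b hab
      have h3 := congrArg Subtype.val hab
      simp only [g] at h3
      refine Subtype.ext ?_
      rw [← Option.some_get (Option.isSome_iff_ne_none.2 a.2.2), h3, Option.some_get]
    have h2 := h.comp (Option.map g) (Option.map_injective hg)
    convert h2 using 1
    ext o
    cases o with
    | none => rfl
    | some q =>
      obtain ⟨q, hq1, hq2⟩ := q
      cases q with
      | none => exact absurd rfl hq2
      | some p =>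
        have hp := hq1 p rfl
        have h5 : 2 ≤ p.1 := by
          rcases hp.1 with h6 | h6
          · have := hN _ h6
            omega
          · exact h6.1
        exact R_eq h5 hp.2
  | some p₀ =>
    refine algebraicIndependent_of_finite_type fun t ht => ?_
    let S : Finset (ℕ × ℚ) := ht.toFinset.biUnion fun o => o.elim ∅ fun q => q.1.elim ∅ fun p => {p}
    have hS : ∀ p ∈ S, p ≠ p₀ ∧ p.1 ∈ withEven N ∧ 0 < p.2 := by
      intro p hp
      obtain ⟨o, ho, hp⟩ := Finset.mem_biUnion.1 hp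
      cases o with
      | none => simp at hp
      | some q =>
        obtain ⟨q, hq1, hq2⟩ := q
        cases q with
        | none => simp at hp
        | some q =>
          simp at hp
          subst hp
          exact ⟨fun h => hq2 (by rw [h]), hq1 p rfl⟩
    have hS' : ∀ p (hp : some p ∈ Names (withEven N) ∧ some p ≠ some p₀), some ⟨some p, hp⟩ ∈ t → p ∈ S := by
      intro p hp hpt
      refine Finset.mem_biUnion.2 ⟨_, ht.mem_toFinset.2 hpt, ?_⟩
      simp
    have key := indep_fin hF N hN hy p₀ (h₀ p₀ rfl) h₁ S (fun p hp => (hS p hp).2) fun h => (hS _ h).1 rfl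
    let f : t → Option (Option S) := fun o => match o with
      | ⟨none, _⟩ => none
      | ⟨some ⟨none, _⟩, _⟩ => some none
      | ⟨some ⟨some p, hp⟩, h⟩ => some (some ⟨p, hS' p hp h⟩)
    have hf : Function.Injective f := by
      rintro ⟨_ | ⟨_ | p, hp⟩, ho⟩ ⟨_ | ⟨_ | q, hq⟩, ho'⟩ hab <;> simp_all [f]
    have h2 := key.comp f hf
    convert h2 using 1
    ext ⟨_ | ⟨_ | p, hp⟩, ho⟩ <;> rfl

theorem result_fin {F : Subfield ℝ} (hF : SimLiouville F) (N : Finset ℕ) (hN : ∀ n ∈ N, 3 ≤ n) :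
    (ratioNames F N).encard ≤ (N.card + 1 : ℕ) := by
  classical
  let y : Fin N.card → ℝ := fun j => ratio (N.equivFin.symm j)
  have h := main hF y N (fun n hn => hN n (Finset.mem_coe.1 hn)) fun n hn => by
    refine Pool.Agent.V5helper44.SimMat.mem_cF_iff.1 (Pool.Agent.R352.E.subset_clF _ (Or.inr (Or.inr
      ⟨Fin.succ (N.equivFin ⟨n, Finset.mem_coe.1 hn⟩), ?_⟩)))
    simp [y]
  let f : Option ℕ ⊕ (ℕ × ℚ) → Fin (N.card + 1) ⊕ (ℕ × ℚ) :=
    Sum.map (fun o => o.elim 0 fun n => if hn : n ∈ N then Fin.succ (N.equivFin ⟨n, hn⟩) else 0) id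
  have hf : InjOn f (ratioNames F N) := by
    rintro ((_ | n) | p) ha ((_ | m) | q) hb hab
    · rfl
    · have hm : m ∈ N := hb.1
      simp [f, hm] at hab
      exact absurd hab.symm (Fin.succ_ne_zero _)
    · simp [f] at hab
    · have hn : n ∈ N := ha.1
      simp [f, hn] at hab
    · have hn : n ∈ N := ha.1
      have hm : m ∈ N := hb.1
      simp [f, hn, hm] at hab
      rw [hab]
    · simp [f] at hab
    · simp [f] at hab
    · simp [f] at hab
    · simp [f] at hab
      rw [hab]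
  rw [← hf.encard_image]
  refine le_trans (encard_le_encard ?_) h
  rintro _ ⟨((_ | n) | p), ha, rfl⟩
  · exact ha
  · have hn : n ∈ N := ha.1
    simp only [f, Sum.map_inl, Option.elim, dif_pos hn]
    show AlgOver F {Real.exp 1} _
    simp only [Fin.cons_succ, y, Equiv.symm_apply_apply]
    exact ha.2
  · exact ha

theorem one_name {F : Subfield ℝ} (hF : SimLiouville F) (N : Set ℕ) (hN : ∀ n ∈ N, 3 ≤ n)
    (hy : ∀ n ∈ N, AlgOver F {Real.exp 1} (ratio n)) :
    {o | o ∈ Names (withEven N) ∧ AlgOver F {Real.exp 1} (val o)}.encard ≤ 1 := by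
  rw [encard_le_one_iff]
  rintro a b ⟨ha, ha'⟩ ⟨hb, hb'⟩
  by_contra hab
  have h := indep hF N hN hy a ha ha'
  have h2 : AlgebraicIndependent F (fun i : Fin 2 => ![Real.exp 1, val b] i) := by
    have h3 := h.comp (![none, some ⟨b, hb, fun h => hab h.symm⟩] : Fin 2 → _) (by
      intro i j hij
      fin_cases i <;> fin_cases j <;> simp_all)
    convert h3 using 1
    ext i
    fin_cases i <;> rfl
  have h4 := Pool.Agent.V5helper44.SimMat.card_leF h2 (T := {Real.exp 1}) (fun i => by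
    fin_cases i
    · exact Pool.Agent.R352.E.subset_clF _ (Or.inr rfl)
    · exact Pool.Agent.V5helper44.SimMat.mem_cF_iff.2 hb')
  have h5 := h4.trans (Matroid.eRk_le_encard _ _)
  rw [encard_singleton, Fintype.card_fin] at h5
  exact absurd h5 (by decide)

/-- see the text at the beginning of the file -/
theorem result :
    -- examples of simultaneously Liouville fields
    (∀ (T : ℕ → ℝ) (hT : Tendsto T atTop atTop), SimLiouville (ApField T hT)) ∧
    (∀ S : Set ℕ, S.Infinite → SimLiouville (field S)) ∧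
    -- the tails
    ((∀ k : ℕ, 2 ≤ k → (-1) ^ k / k.factorial * ∫ t in octant k, integrand k t = (zeta k : ℂ)) ∧
      (∀ k : ℕ, 2 ≤ k → ∀ x : ℚ, 0 < x → tailIntegral k x = (R k x : ℂ)) ∧
      ∀ x : ℚ, 0 < x → R 3 x =
        1 / 12 * ∫ t in rest 3 x, Real.log (t 0 * t 1 / t 2 ^ 2) ^ 3 * Real.exp (-(t 0 + t 1 + t 2))) ∧
    ∀ F : Subfield ℝ, SimLiouville F →
      -- (1)
      (∀ N : Finset ℕ, (∀ n ∈ N, 3 ≤ n ∧ Odd n) → (ratioNames F N).encard ≤ (N.card + 1 : ℕ)) ∧
      -- (2)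
      (∀ N : Set ℕ, (∀ n ∈ N, 3 ≤ n ∧ Odd n) → (∀ n ∈ N, AlgOver F {Real.exp 1} (ratio n)) →
        {o | o ∈ Names (withEven N) ∧ AlgOver F {Real.exp 1} (val o)}.encard ≤ 1 ∧
        (∀ o₀ ∈ Names (withEven N), AlgOver F {Real.exp 1} (val o₀) →
          AlgebraicIndependent F (fun o : Option {o : Option (ℕ × ℚ) // o ∈ Names (withEven N) ∧ o ≠ o₀} =>
            o.elim (Real.exp 1) fun q => val q.1)) ∧
        ∀ S : Finset (ℕ × ℚ), (∀ p ∈ S, p.1 ∈ withEven N ∧ 0 < p.2) →
          ((S.card + 1 : ℕ) : Cardinal) ≤ Algebra.trdeg F (IntermediateField.adjoin F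
            ({Real.exp 1, Real.pi} ∪ (fun p : ℕ × ℚ => R p.1 p.2) '' (S : Set (ℕ × ℚ))))) ∧
      -- (3)
      (∀ (r : ℕ) (y : Fin r → ℝ) (N : Set ℕ), (∀ n ∈ N, 3 ≤ n ∧ Odd n) →
        (∀ n ∈ N, AlgOver F ({Real.exp 1, Real.pi} ∪ range y) (ratio n)) →
        (algebraicNames F (Fin.cons (α := fun _ => ℝ) Real.pi y) (withEven N)).encard ≤ (r + 1 : ℕ) ∧
        ∀ S : Finset (ℕ × ℚ), (∀ p ∈ S, p.1 ∈ withEven N ∧ 0 < p.2) →
          ((S.card + 1 : ℕ) : Cardinal) ≤ Algebra.trdeg F (IntermediateField.adjoin F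
            ({Real.exp 1, Real.pi} ∪ range y ∪ (fun p : ℕ × ℚ => R p.1 p.2) '' (S : Set (ℕ × ℚ))))) := by
  have hset : ∀ {r : ℕ} (y : Fin r → ℝ), ({Real.exp 1} ∪ range (Fin.cons (α := fun _ => ℝ) Real.pi y) : Set ℝ) =
      {Real.exp 1, Real.pi} ∪ range y := by
    intro r y
    rw [Fin.range_cons]
    ext z
    simp only [mem_union, mem_insert_iff, mem_singleton_iff]
    tauto
  refine ⟨sim_apField, sim_lz, ⟨fun k hk => full_eq hk, fun k hk x hx => ?_, fun x hx => three hx⟩,
    fun F hF => ⟨fun N hN => result_fin hF N fun n hn => (hN n hn).1,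
      fun N hN hy => ⟨one_name hF N (fun n hn => (hN n hn).1) hy,
        fun o₀ h₀ h₁ => indep hF N (fun n hn => (hN n hn).1) hy o₀ h₀ h₁, fun S hS => ?_⟩,
      fun r y N hN hy => ?_⟩⟩
  · rw [R, tailIntegral_eq hk hx, Complex.ofReal_re]
  · have h := main_trdeg hF (Fin.elim0 : Fin 0 → ℝ) N (fun n hn => (hN n hn).1) (fun n hn => by
      refine Pool.Agent.V5helper44.SimMat.mem_cF_iff.1 ?_
      exact Pool.Agent.R352.E.clF_mono (union_subset_union_right _ subset_union_left)
        (Pool.Agent.V5helper44.SimMat.mem_cF_iff.2 (hy n hn))) S hS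
    rw [hset, range_eq_empty, union_empty] at h
    exact h
  · have hy' := hy
    rw [← hset] at hy'
    refine ⟨main hF y N (fun n hn => (hN n hn).1) hy', fun S hS => ?_⟩
    have h := main_trdeg hF y N (fun n hn => (hN n hn).1) hy' S hS
    rw [hset] at h
    exact h

end Pool.Agent.Results.MP_f1a024_nt.TailsAndRatios
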