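import Mathlib
import Pool.Agent.V5helper59.NS.Main
import Pool.Agent.V5helper62.RM.Tails
import Pool.Agent.Results.MP_f1a024_nt.TailsAndRatios

set_option autoImplicit false

/-!
# Near algebraic relations of `t(n) = ζ(2n) / ζ(n)²` at every scale

The numbers considered here are `π`, the numbers `t(n) = ζ(2n) / ζ(n)²` for odd `n ≥ 3`, and for `k ≥ 2` and a
positive rational number `x` the number `R_k(x)`, the tail over `(0, ∞)^k \ (0, x)^k` of the integral
`(-1)^k / k! * ∫ (∑_j ω^j log t_j)^k exp (-∑_j t_j) dt`, `ω = exp (2 π i / k)`, which over `(0, ∞)^k` is `ζ(k)` (see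
the file `TailsAndRatios`). In that file it is shown that for every odd `n ≥ 3` at most two of the numbers
`π`, `t(n)`, `R_n(x)`, `R_k(x)` (`k` even) are algebraic over `ℚ(e)`, and at most one of those different
from `t(n)`, if `t(n)` is rational. These are statements on exact relations. Here it is shown that they hold at
every scale, for every single odd `n ≥ 3`.

A number `u` is nearly algebraic over `ℤ[e]` at the scale `H` (with the degree `D` and the accuracy `δ`) if
`|P(e, u)| < δ` for a nonzero integer polynomial `P` in two variables of total degree at most `D` with coefficients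
of absolute value at most `H`.

Let `N` be a finite set of odd integers `n ≥ 3` and `A` any set of odd integers `n ≥ 3` for which `t(n)` is
algebraic over `ℚ(e)`, for instance rational. Let `Φ` be the family of the numbers `π`, `t(n)` (`n ∈ N`) and
`R_k(x)` (`k ∈ N ∪ A` or `k ≥ 2` even, `x` positive rational).

(1) Let `Ψ` be a part of `Φ` with at least `|N| + 1` members and `v_1, …, v_m` further members of `Φ`. For every `D`
there are `κ, c > 0` with the following property, for all `H`: if all members of `Ψ` are nearly algebraic over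
`ℤ[e]` at the scale `H`, with the accuracy `c H ^ (-κ)`, then `|Q(e, v_1, …, v_m)| ≥ c H ^ (-κ)` for all nonzero
integer polynomials `Q` of total degree at most `D` with coefficients of absolute value at most `H`.

(2) If all members of `Ψ` are algebraic over `ℚ(e)`, then `e, v_1, …, v_m` have a polynomial measure of algebraic
independence: `|Q(e, v_1, …, v_m)| ≥ c H ^ (-κ)` for all `H` and `Q`.

(3) If `Ψ` has at least `|N| + 2` members, then its members are not all nearly algebraic over `ℤ[e]` at the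
scale `H` with the accuracy `c H ^ (-κ)`, for any `H`.

(4) Let `n ≥ 3` be odd. For any three different numbers `u, v, w` among `π`, `t(n)`, `R_n(x)`, `R_k(x)` (`k` even, `x`
positive rational) `max (|P(e, u)|, |Q(e, v)|, |S(e, w)|) ≥ c H ^ (-κ)` for all nonzero integer polynomials
`P`, `Q`, `S` of total degree at most `D` with coefficients of absolute value at most `H`. If `t(n)` is
rational, then `max (|P(e, u)|, |Q(e, v)|) ≥ c H ^ (-κ)` for any two different numbers `u, v` among `π`, `R_n(x)`,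
`R_k(x)` (`k` even, `x` positive rational).

The proof: for a sequence of scales `H_j → ∞` consider the sequences of real numbers bounded by powers of `H_j` modulo
the sequences smaller than all powers of `1 / H_j`, with respect to an ultrafilter. They form a field `K`
containing the real numbers and the ring `B` of the classes of sequences of integers. A polynomial measure of
algebraic independence means algebraic independence over `B` in `K` for all sequences of scales, and near
relations become relations over `B`. So every argument with transcendence degrees which starts from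
numbers with a polynomial measure, here `e` and the numbers `ζ(k) - R_k(x)`, holds at every scale.
-/

namespace Pool.Agent.Results.MP_f1a024_nt.NearRelations

open Filter Topology Set MeasureTheory Pool.Agent.Results.MP_f1a024_nt.TailsAndRatios
open Pool.Agent.V5helper59.NS (ND)

/-- names: `inl none` is the name of `π`, `inl (some n)` of `t(n)`, `inr (k, x)` of `R_k(x)` -/
abbrev Name : Type := Option ℕ ⊕ (ℕ × ℚ)

/-- the number with a name -/
noncomputable def num (w : Name) : ℝ := Sum.elim (fun o => o.elim Real.pi ratio) (fun p => R p.1 p.2) w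

/-- the names of `π`, of `t(n)` for `n ∈ N`, and of `R_k(x)` for `k ∈ N ∪ A` or `k ≥ 2` even and a positive
rational number `x` -/
def Good (N A : Set ℕ) (w : Name) : Prop :=
  Sum.elim (fun o => ∀ n ∈ o, n ∈ N) (fun p => p.1 ∈ withEven (N ∪ A) ∧ 0 < p.2) w

/-- `u` is nearly algebraic over `ℤ[e]` at the scale `H`: `|P(e, u)| < δ` for a nonzero integer polynomial
in two variables of total degree at most `D` with coefficients of absolute value at most `H` -/
def Near (D : ℕ) (H δ u : ℝ) : Prop :=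
  ∃ P : MvPolynomial (Fin 2) ℤ, P ≠ 0 ∧ P.totalDegree ≤ D ∧ (∀ m, |((P.coeff m : ℤ) : ℝ)| ≤ H) ∧
    |MvPolynomial.aeval ![Real.exp 1, u] P| < δ

/-- `|Q(e, v_1, …, v_m)| ≥ δ` for all nonzero integer polynomials `Q` of total degree at most `D` with
coefficients of absolute value at most `H`, where the `v_i` are the numbers with names in `S` -/
def LowerBound (S : Finset Name) (D : ℕ) (H δ : ℝ) : Prop :=
  ∀ Q : MvPolynomial (Option S) ℤ, Q ≠ 0 → Q.totalDegree ≤ D → (∀ m, |((Q.coeff m : ℤ) : ℝ)| ≤ H) →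
    δ ≤ |MvPolynomial.aeval (fun o : Option S => o.elim (Real.exp 1) fun w => num w.1) Q|

theorem zeta_mem' {T : Set ℝ} {N A : Set ℕ} (hN : ∀ n ∈ N ∪ A, 3 ≤ n) (he : Real.exp 1 ∈ T)
    (hpi : Real.pi ∈ T) (hn : ∀ n ∈ N, ratio n ∈ T) (hA : ∀ n ∈ A, AlgOver ⊥ {Real.exp 1} (ratio n))
    {k : ℕ} (hk : k ∈ withEven (N ∪ A)) :
    2 ≤ k ∧ Pool.Agent.V5helper44.SimZk.cst k ∈ Pool.Agent.R352.E.clF T := by
  have hpi' : Real.pi ∈ Pool.Agent.R352.E.clF T := Pool.Agent.R352.E.subset_clF _ hpi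
  have hev : ∀ j : ℕ, j ≠ 0 → zeta (2 * j) ∈ Pool.Agent.R352.E.clF T := fun j hj =>
    Pool.Agent.R352.E.zt_even hpi' j hj
  rcases hk with hk | ⟨h2, j, hj⟩
  · have h3 := hN k hk
    refine ⟨by omega, ?_⟩
    rw [cst_eq (by omega)]
    have h4 : ratio k ∈ Pool.Agent.R352.E.clF T := by
      rcases hk with hk | hk
      · exact Pool.Agent.R352.E.subset_clF _ (hn k hk)
      · have h5 := Pool.Agent.V5helper44.SimMat.mem_cF_iff.2 (hA k hk)
        refine Pool.Agent.R352.E.clF_le ?_ h5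
        rintro z (hz | hz)
        · have h6 : z ∈ (⊥ : Subfield ℝ) := hz
          exact (bot_le : (⊥ : Subfield ℝ) ≤ Pool.Agent.R352.E.clF T) h6
        · rw [mem_singleton_iff] at hz
          rw [hz]
          exact Pool.Agent.R352.E.subset_clF _ he
    have h5 : zeta k ^ 2 = zeta (2 * k) / ratio k := by
      have := (zeta_pos (show 2 ≤ k by omega)).ne'
      have := (zeta_pos (show 2 ≤ 2 * k by omega)).ne'
      rw [ratio]
      field_simp
    have h6 : zeta k ^ 2 ∈ Pool.Agent.R352.E.clF T := by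
      rw [h5]
      exact (Pool.Agent.R352.E.clF T).div_mem (hev k (by omega)) h4
    exact Pool.Agent.R352.E.of_pow (by norm_num) h6
  · refine ⟨h2, ?_⟩
    rw [cst_eq h2, show k = 2 * j by omega]
    exact hev j (by omega)

theorem main (N : Finset ℕ) (A : Set ℕ) (hN : ∀ n ∈ (N : Set ℕ) ∪ A, 3 ≤ n)
    (hA : ∀ n ∈ A, AlgOver ⊥ {Real.exp 1} (ratio n)) (Ψ : Set Name) (hΨ : ∀ w ∈ Ψ, Good N A w)
    (hcard : (N.card + 1 : ℕ) ≤ Ψ.encard) (S : Finset Name) (hS : ∀ w ∈ S, Good N A w ∧ w ∉ Ψ) (D : ℕ) :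
    ∃ κ c : ℝ, 0 < κ ∧ 0 < c ∧ ∀ H : ℝ, (∀ w ∈ Ψ, Near D H (c * H ^ (-κ)) (num w)) →
      LowerBound S D H (c * H ^ (-κ)) := by
  classical
  obtain ⟨Ψ₀, hΨ₀, hΨc⟩ := exists_subset_encard_eq hcard
  have hfin : Ψ₀.Finite := by
    rw [← encard_lt_top_iff, hΨc]
    exact ENat.natCast_lt_top _
  set Ψ' : Finset Name := hfin.toFinset with hΨ'
  have hΨ'm : ∀ w ∈ Ψ', w ∈ Ψ := fun w hw => hΨ₀ (hfin.mem_toFinset.1 hw)
  have hΨ'c : Ψ'.card = N.card + 1 := by
    have h1 : ((Ψ'.card : ℕ) : ℕ∞) = ((N.card + 1 : ℕ) : ℕ∞) := by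
      rw [← hΨc, ← encard_coe_eq_coe_finsetCard, hfin.coe_toFinset]
    exact_mod_cast h1
  -- all names
  let base : Finset Name := insert (Sum.inl none) (N.image fun n => Sum.inl (some n))
  have hbase : base.card = N.card + 1 := by
    rw [Finset.card_insert_of_notMem (by simp), Finset.card_image_of_injective _ (by
      intro a b hab
      simpa using hab)]
  let rest : Finset (ℕ × ℚ) := (S ∪ Ψ').biUnion fun w => Sum.elim (fun _ => ∅) (fun p => {p}) w
  have hrest : ∀ p : ℕ × ℚ, p ∈ rest ↔ Sum.inr p ∈ S ∪ Ψ' := by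
    intro p
    simp only [rest, Finset.mem_biUnion]
    constructor
    · rintro ⟨w, hw, hp⟩
      rcases w with w | q
      · simp at hp
      · simp at hp
        subst hp
        exact hw
    · intro h
      exact ⟨_, h, by simp⟩
  have hgood : ∀ w ∈ S ∪ Ψ', Good N A w := by
    intro w hw
    rcases Finset.mem_union.1 hw with h | h
    · exact (hS w h).1
    · exact hΨ w (hΨ'm w h)
  let Φ : Finset Name := base ∪ rest.image Sum.inr
  have hΦ : Φ.card = N.card + 1 + rest.card := by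
    rw [Finset.card_union_of_disjoint, hbase, Finset.card_image_of_injective _ Sum.inr_injective]
    rw [Finset.disjoint_left]
    intro w hw hw'
    obtain ⟨p, -, rfl⟩ := Finset.mem_image.1 hw'
    simp [base] at hw
  have hsub : S ∪ Ψ' ⊆ Φ := by
    intro w hw
    have h1 := hgood w hw
    rcases w with (_ | n) | p
    · simp [Φ, base]
    · have h2 : n ∈ N := h1 n rfl
      simp [Φ, base, h2]
    · have h2 := (hrest p).2 hw
      simp [Φ, h2]
  let V : Finset Name := Φ \ Ψ'
  have hV : V.card = rest.card := by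
    rw [Finset.card_sdiff_of_subset (Finset.subset_union_right.trans hsub), hΦ, hΨ'c]
    omega
  have hSV : S ⊆ V := by
    intro w hw
    refine Finset.mem_sdiff.2 ⟨hsub (Finset.mem_union_left _ hw), fun h => (hS w hw).2 (hΨ'm w h)⟩
  -- the closure
  let u : Ψ' → ℝ := fun w => num w.1
  let v : Option V → ℝ := fun o => o.elim (Real.exp 1) fun w => num w.1
  have hT : ∀ w ∈ Φ, num w ∈ range u ∪ range v := by
    intro w hw
    by_cases h : w ∈ Ψ'
    · exact Or.inl ⟨⟨w, h⟩, rfl⟩
    · exact Or.inr ⟨some ⟨w, Finset.mem_sdiff.2 ⟨hw, h⟩⟩, rfl⟩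
  have he : Real.exp 1 ∈ range u ∪ range v := Or.inr ⟨none, rfl⟩
  have hz := fun k hk => zeta_mem' (T := range u ∪ range v) (N := N) hN he
    (hT (Sum.inl none) (by simp [Φ, base])) (fun n hn => hT (Sum.inl (some n)) (by
      have : n ∈ N := hn
      simp [Φ, base, this])) hA (k := k) hk
  have hr : ∀ p ∈ rest, p.1 ∈ withEven (N ∪ A) ∧ 0 < p.2 := fun p hp => hgood _ ((hrest p).1 hp)
  have hx := Pool.Agent.V5helper62.RM.measM_CC rest fun p hp =>
    ⟨by have := (hz _ (hr p hp).1).1; omega, (hr p hp).2⟩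
  obtain ⟨κ, c, hκ, hc, hmain⟩ := Pool.Agent.V5helper59.NS.relative hx none u v none rfl (fun i => by
    cases i with
    | none => exact Pool.Agent.R352.E.subset_clF _ he
    | some p =>
      have hp := hr p.1 p.2
      refine Pool.Agent.V5helper44.SimZk.CC_mem (hz _ hp.1).2 ?_
      rw [← R_eq (hz _ hp.1).1 hp.2]
      exact Pool.Agent.R352.E.subset_clF _ (hT (Sum.inr p.1) (by
        have := p.2
        simp [Φ, this]))) (by simp [hV]) D
  refine ⟨κ, c, hκ, hc, fun H hH Q hQ hQD hQH => ?_⟩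
  have hinj : Function.Injective (Option.map fun w : S => (⟨w.1, hSV w.2⟩ : V)) := by
    refine Option.map_injective ?_
    intro a b hab
    exact Subtype.ext (congrArg (fun z : V => z.1) hab)
  have h1 := hmain H (fun w => hH w.1 (hΨ'm w.1 w.2))
    (MvPolynomial.rename (Option.map fun w : S => (⟨w.1, hSV w.2⟩ : V)) Q)
    (fun h0 => hQ (MvPolynomial.rename_injective _ hinj (h0.trans (map_zero _).symm)))
    ((MvPolynomial.totalDegree_rename_le _ Q).trans hQD) (fun m => by
      by_cases hm : (MvPolynomial.rename (Option.map fun w : S => (⟨w.1, hSV w.2⟩ : V)) Q).coeff m = 0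
      · rw [hm]
        have := Pool.Agent.N743.SS.one_le_of_mcoeff hQ hQH
        simp only [Int.cast_zero, abs_zero]
        linarith
      · obtain ⟨m', hm', -⟩ := MvPolynomial.coeff_rename_ne_zero _ _ _ hm
        rw [← hm', MvPolynomial.coeff_rename_mapDomain _ hinj]
        exact hQH m')
  rw [MvPolynomial.aeval_rename] at h1
  convert h1 using 4
  ext o
  cases o <;> rfl

/-- numbers algebraic over `ℚ(e)` have relations over `ℤ[e]` -/
theorem exists_relation {u : ℝ} (hu : AlgOver ⊥ {Real.exp 1} u) :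
    ∃ P : MvPolynomial (Fin 2) ℤ, P ≠ 0 ∧ MvPolynomial.aeval ![Real.exp 1, u] P = 0 := by
  by_contra hcon
  push Not at hcon
  have h1 : AlgebraicIndependent ℤ ![Real.exp 1, u] := by
    rw [algebraicIndependent_iff]
    intro p hp
    by_contra h
    exact hcon p h hp
  have hZQ : Algebra.IsAlgebraic ℤ ℚ :=
    (IsFractionRing.comap_isAlgebraic_iff (A := ℤ) (K := ℚ) (C := ℚ)).2 inferInstance
  have h2 : AlgebraicIndependent ℚ ![Real.exp 1, u] := h1.extendScalars ℚ
  have h3 : u ∈ Pool.Agent.R352.E.clF {Real.exp 1} := by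
    have h5 := Pool.Agent.V5helper44.SimMat.mem_cF_iff.2 hu
    refine Pool.Agent.R352.E.clF_le ?_ h5
    rintro z (hz | hz)
    · have h6 : z ∈ (⊥ : Subfield ℝ) := hz
      exact (bot_le : (⊥ : Subfield ℝ) ≤ Pool.Agent.R352.E.clF {Real.exp 1}) h6
    · exact Pool.Agent.R352.E.subset_clF _ hz
  have h4 := Pool.Agent.R352.E.card_le h2 (T := {Real.exp 1}) (fun i => by
    fin_cases i
    · exact Pool.Agent.R352.E.subset_clF _ rfl
    · exact h3)
  have h5 := h4.trans (Matroid.eRk_le_encard _ _)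
  rw [encard_singleton, Fintype.card_fin] at h5
  exact absurd h5 (by decide)

theorem exact_case (N : Finset ℕ) (A : Set ℕ) (hN : ∀ n ∈ (N : Set ℕ) ∪ A, 3 ≤ n)
    (hA : ∀ n ∈ A, AlgOver ⊥ {Real.exp 1} (ratio n)) (Ψ : Set Name) (hΨ : ∀ w ∈ Ψ, Good N A w)
    (hcard : (N.card + 1 : ℕ) ≤ Ψ.encard) (halg : ∀ w ∈ Ψ, AlgOver ⊥ {Real.exp 1} (num w))
    (S : Finset Name) (hS : ∀ w ∈ S, Good N A w ∧ w ∉ Ψ) (D : ℕ) :
    ∃ κ c : ℝ, 0 < κ ∧ 0 < c ∧ ∀ H : ℝ, LowerBound S D H (c * H ^ (-κ)) := by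
  classical
  obtain ⟨Ψ₀, hΨ₀, hΨc⟩ := exists_subset_encard_eq hcard
  have hfin : Ψ₀.Finite := by
    rw [← encard_lt_top_iff, hΨc]
    exact ENat.natCast_lt_top _
  have hex : ∀ w : Name, ∃ P : MvPolynomial (Fin 2) ℤ, w ∈ Ψ → P ≠ 0 ∧
      MvPolynomial.aeval ![Real.exp 1, num w] P = 0 := by
    intro w
    by_cases hw : w ∈ Ψ
    · obtain ⟨P, hP⟩ := exists_relation (halg w hw)
      exact ⟨P, fun _ => hP⟩
    · exact ⟨0, fun h => absurd h hw⟩
  choose P hP using hex
  let D' : ℕ := D + ∑ w ∈ hfin.toFinset, (P w).totalDegree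
  let H₀ : ℝ := 1 + ∑ w ∈ hfin.toFinset, ∑ m ∈ (P w).support, |(((P w).coeff m : ℤ) : ℝ)|
  have hH₀ : 1 ≤ H₀ := by
    have : 0 ≤ ∑ w ∈ hfin.toFinset, ∑ m ∈ (P w).support, |(((P w).coeff m : ℤ) : ℝ)| :=
      Finset.sum_nonneg fun _ _ => Finset.sum_nonneg fun _ _ => abs_nonneg _
    linarith
  obtain ⟨κ, c, hκ, hc, h⟩ := main N A hN hA Ψ₀ (fun w hw => hΨ w (hΨ₀ hw)) hΨc.ge S
    (fun w hw => ⟨(hS w hw).1, fun h => (hS w hw).2 (hΨ₀ h)⟩) D'
  refine ⟨κ, c * H₀ ^ (-κ), hκ, by positivity, fun H Q hQ hQD hQH => ?_⟩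
  have hH : 1 ≤ H := Pool.Agent.N743.SS.one_le_of_mcoeff hQ hQH
  have h1 : 1 ≤ H₀ * H := one_le_mul_of_one_le_of_one_le hH₀ hH
  have h2 := h (H₀ * H) (fun w hw => by
    refine ⟨P w, (hP w (hΨ₀ hw)).1, ?_, fun m => ?_, ?_⟩
    · have := Finset.single_le_sum (f := fun w => (P w).totalDegree) (fun _ _ => Nat.zero_le _)
        (hfin.mem_toFinset.2 hw)
      show _ ≤ D + _
      omega
    · refine le_trans ?_ (le_mul_of_one_le_right (by linarith) hH)
      by_cases hm : m ∈ (P w).support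
      · have h3 := Finset.single_le_sum (f := fun m => |(((P w).coeff m : ℤ) : ℝ)|) (fun _ _ => abs_nonneg _) hm
        have h4 := Finset.single_le_sum
          (f := fun w => ∑ m ∈ (P w).support, |(((P w).coeff m : ℤ) : ℝ)|)
          (fun _ _ => Finset.sum_nonneg fun _ _ => abs_nonneg _) (hfin.mem_toFinset.2 hw)
        show _ ≤ 1 + _
        linarith
      · rw [MvPolynomial.notMem_support_iff.1 hm, Int.cast_zero, abs_zero]
        linarith
    · rw [(hP w (hΨ₀ hw)).2, abs_zero]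
      positivity) Q hQ (by
        show _ ≤ D + _
        omega) (fun m => (hQH m).trans (le_mul_of_one_le_left (by linarith) hH₀))
  rw [Real.mul_rpow (by linarith) (by linarith), ← mul_assoc] at h2
  exact h2

theorem not_all (N : Finset ℕ) (A : Set ℕ) (hN : ∀ n ∈ (N : Set ℕ) ∪ A, 3 ≤ n)
    (hA : ∀ n ∈ A, AlgOver ⊥ {Real.exp 1} (ratio n)) (Ψ : Set Name) (hΨ : ∀ w ∈ Ψ, Good N A w)
    (hcard : (N.card + 2 : ℕ) ≤ Ψ.encard) (D : ℕ) :
    ∃ κ c : ℝ, 0 < κ ∧ 0 < c ∧ ∀ H : ℝ, ∀ P : Name → MvPolynomial (Fin 2) ℤ,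
      (∀ w ∈ Ψ, P w ≠ 0 ∧ (P w).totalDegree ≤ D ∧ ∀ m, |(((P w).coeff m : ℤ) : ℝ)| ≤ H) →
      ∃ w ∈ Ψ, c * H ^ (-κ) ≤ |MvPolynomial.aeval ![Real.exp 1, num w] (P w)| := by
  classical
  obtain ⟨w₀, hw₀⟩ : Ψ.Nonempty := by
    rw [nonempty_iff_ne_empty]
    rintro rfl
    simp at hcard
  have hcard' : (N.card + 1 : ℕ) ≤ (Ψ \ {w₀}).encard := by
    have h1 := encard_sdiff_singleton_add_one hw₀
    rw [← h1] at hcard
    have h2 : ((N.card + 2 : ℕ) : ℕ∞) = ((N.card + 1 : ℕ) : ℕ∞) + 1 := by push_cast; rfl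
    rw [h2] at hcard
    exact (ENat.add_le_add_iff_right (by simp)).1 hcard
  obtain ⟨κ, c, hκ, hc, h⟩ := main N A hN hA (Ψ \ {w₀}) (fun w hw => hΨ w hw.1) hcard' {w₀}
    (fun w hw => by
      rw [Finset.mem_singleton] at hw
      subst hw
      exact ⟨hΨ _ hw₀, fun h => h.2 rfl⟩) D
  refine ⟨κ, c, hκ, hc, fun H P hP => ?_⟩
  by_contra hcon
  push Not at hcon
  have h1 := h H fun w hw => ⟨P w, (hP w hw.1).1, (hP w hw.1).2.1, (hP w hw.1).2.2, hcon w hw.1⟩
  obtain ⟨hP1, hP2, hP3⟩ := hP w₀ hw₀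
  let g : Fin 2 → Option ({w₀} : Finset Name) := ![none, some ⟨w₀, Finset.mem_singleton_self w₀⟩]
  have hg : Function.Injective g := by
    intro i j hij
    fin_cases i <;> fin_cases j <;> simp_all [g]
  have h2 := h1 (MvPolynomial.rename g (P w₀))
    (fun h0 => hP1 (MvPolynomial.rename_injective g hg (h0.trans (map_zero _).symm)))
    ((MvPolynomial.totalDegree_rename_le g _).trans hP2) (fun m => by
      by_cases hm : (MvPolynomial.rename g (P w₀)).coeff m = 0
      · rw [hm]
        have := Pool.Agent.N743.SS.one_le_of_mcoeff hP1 hP3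
        simp only [Int.cast_zero, abs_zero]
        linarith
      · obtain ⟨m', hm', -⟩ := MvPolynomial.coeff_rename_ne_zero _ _ _ hm
        rw [← hm', MvPolynomial.coeff_rename_mapDomain g hg]
        exact hP3 m')
  rw [MvPolynomial.aeval_rename] at h2
  have h3 : (fun o : Option ({w₀} : Finset Name) => o.elim (Real.exp 1) fun w => num w.1) ∘ g =
      ![Real.exp 1, num w₀] := by
    ext i
    fin_cases i <;> rfl
  rw [h3] at h2
  exact absurd h2 (not_le.2 (hcon w₀ hw₀))

/-- for every `D` there are `κ, c > 0` with `|P_w(e, w)| ≥ c H ^ (-κ)` for at least one of the numbers `w` with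
names in `Ψ`, for all nonzero integer polynomials `P_w` of total degree at most `D` with
coefficients of absolute value at most `H` -/
def JointMeasure (Ψ : Set Name) : Prop :=
  ∀ D : ℕ, ∃ κ c : ℝ, 0 < κ ∧ 0 < c ∧ ∀ H : ℝ, ∀ P : Name → MvPolynomial (Fin 2) ℤ,
    (∀ w ∈ Ψ, P w ≠ 0 ∧ (P w).totalDegree ≤ D ∧ ∀ m, |(((P w).coeff m : ℤ) : ℝ)| ≤ H) →
    ∃ w ∈ Ψ, c * H ^ (-κ) ≤ |MvPolynomial.aeval ![Real.exp 1, num w] (P w)|

/-- see the text at the beginning of the file -/
theorem result :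
    (∀ (N : Finset ℕ) (A : Set ℕ), (∀ n ∈ (N : Set ℕ) ∪ A, 3 ≤ n ∧ Odd n) →
      (∀ n ∈ A, AlgOver ⊥ {Real.exp 1} (ratio n)) →
      ∀ Ψ : Set Name, (∀ w ∈ Ψ, Good N A w) → (N.card + 1 : ℕ) ≤ Ψ.encard →
        -- (1)
        (∀ S : Finset Name, (∀ w ∈ S, Good N A w ∧ w ∉ Ψ) → ∀ D : ℕ, ∃ κ c : ℝ, 0 < κ ∧ 0 < c ∧ ∀ H : ℝ,
          (∀ w ∈ Ψ, Near D H (c * H ^ (-κ)) (num w)) → LowerBound S D H (c * H ^ (-κ))) ∧
        -- (2)
        ((∀ w ∈ Ψ, AlgOver ⊥ {Real.exp 1} (num w)) → ∀ S : Finset Name, (∀ w ∈ S, Good N A w ∧ w ∉ Ψ) →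
          ∀ D : ℕ, ∃ κ c : ℝ, 0 < κ ∧ 0 < c ∧ ∀ H : ℝ, LowerBound S D H (c * H ^ (-κ))) ∧
        -- (3)
        ((N.card + 2 : ℕ) ≤ Ψ.encard → JointMeasure Ψ)) ∧
    -- (4)
    (∀ n : ℕ, 3 ≤ n → Odd n →
      (∀ u v w : Name, Good {n} ∅ u → Good {n} ∅ v → Good {n} ∅ w → u ≠ v → v ≠ w → u ≠ w →
        JointMeasure {u, v, w}) ∧
      (AlgOver ⊥ {Real.exp 1} (ratio n) → ∀ u v : Name, Good ∅ {n} u → Good ∅ {n} v → u ≠ v →
        JointMeasure {u, v})) := by
  refine ⟨fun N A hN hA Ψ hΨ hcard => ⟨fun S hS D => ?_, fun halg S hS D => ?_, fun hc D => ?_⟩,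
    fun n hn hodd => ⟨fun u v w hu hv hw h1 h2 h3 D => ?_, fun halg u v hu hv h1 D => ?_⟩⟩
  · exact main N A (fun n hn => (hN n hn).1) hA Ψ hΨ hcard S hS D
  · exact exact_case N A (fun n hn => (hN n hn).1) hA Ψ hΨ hcard halg S hS D
  · exact not_all N A (fun n hn => (hN n hn).1) hA Ψ hΨ hc D
  · refine not_all {n} ∅ (by simpa using hn) (by simp) {u, v, w} ?_ ?_ D
    · rintro z (rfl | rfl | rfl)
      · simpa using hu
      · simpa using hv
      · simpa using hw
    · rw [encard_insert_of_notMem (by simp [h1, h3]), encard_pair h2]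
      simp
      norm_num
  · refine not_all ∅ {n} (by simpa using hn) (by simpa using halg) {u, v} ?_ ?_ D
    · rintro z (rfl | rfl)
      · simpa using hu
      · simpa using hv
    · rw [encard_pair h1]
      simp

end Pool.Agent.Results.MP_f1a024_nt.NearRelations
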