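import Mathlib
import Pool.Agent.V5helper59.NS.Joint
import Pool.Agent.R473.JC.Pairs
import Pool.Agent.Results.MP_f1a024_nt.NearRelations

set_option autoImplicit false

/-!
# The digits of `t(n) = ζ(2n) / ζ(n)²` for every odd `n ≥ 3`

`S(X) = s_1 X + ⋯ + s_L X^L`, where the `s_i` are the digits of a real number `x` in base `b` after at most `K` of
them have been changed. The `K`-error algebraic complexity `N_b(x) = N_b(x; r, K, L)` is the least `k` such that
`X^(L+1)` divides `P(X, S(X))` for some nonzero polynomial `P(X, Y)` of degree at most `r` in `Y` and at most `k` in `X`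
and some such choice of `S`; for `r = 1` this is essentially the linear complexity. It is bounded for `L → ∞` if
the power series of the digits is algebraic of degree at most `r` over `ℚ(X)`.

Let `N` be a finite set of odd integers `n ≥ 3` and `A` any set of odd integers `n ≥ 3` for which `t(n)` is
algebraic over `ℚ(e)` (for instance rational). Let `Φ` be the family of the numbers `π`, `t(n)` (`n ∈ N`) and
`R_k(x)` (`k ∈ N ∪ A` or `k ≥ 2` even, `x` positive rational), where `R_k(x)` is the tail of the `k`-fold integral for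
`ζ(k)`, see the file `TailsAndRatios`.

(1) For any `|N| + 2` numbers `u_1, u_2, …` of `Φ` and every `r` there is `A ≥ 1` such that for all bases `b_i`, all
numbers of errors `K_i`, all lengths `L_i` and all `Λ ≤ min L_i log b_i`
`Λ ≤ A^(K_1 + K_2 + ⋯ + 1) ∑ (N_(b_i)(u_i; r, K_i, L_i) + 1) log b_i`.

(2) For every finite part `E` of `Φ` and every `r` there is `c > 0` such that for all bases `b`, all `K` and all `L` all
numbers `u` in `E`, with at most `|N| + 1` exceptions, satisfy `N_b(u; r, K, L) + 1 ≥ c^(K+1) L`.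

In particular for every odd `n ≥ 3` all but at most two of the numbers `t(n)`, `R_n(1)`, `R_2(1)`, `π` have this
property, and all but at most one of the numbers `R_n(1)`, `R_2(1)`, `π`, if `t(n)` is rational.

(3) Let `n ≥ 3` be odd and consider the numbers `u = α ζ(n)^i π^j` with integers `i`, `j` and real algebraic numbers
`α ≠ 0`; `t(n)` is such a number with `i = -2`, `j = 2n`. For two such numbers `u`, `v` whose pairs of exponents are not
proportional and for every `D` there are `κ, c > 0` with `max (|P(u)|, |Q(v)|) ≥ c H ^ (-κ)` for all nonzero integer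
polynomials `P`, `Q` of degree at most `D` with coefficients of absolute value at most `H`, and for every `r` there is
`A ≥ 1` such that for all bases `b, β`, all lengths `L, L'` and all numbers of errors `K, K'`
`min (L log b, L' log β) ≤ A^(K+K'+1) ((N_b(u; r, K, L) + 1) log b + (N_β(v; r, K', L') + 1) log β)`.
This applies to `t(n)` and `ζ(n)`, and to `t(n)` and `ζ(n) π^j` for all integers `j ≠ -n`.
-/

namespace Pool.Agent.Results.MP_f1a024_nt.DigitComplexity

open Finset Polynomial Pool.Agent.Results.MP_f1a024_nt.TailsAndRatios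
open Pool.Agent.Results.MP_f1a024_nt.NearRelations (Name num Good)
open Pool.Agent.V5helper59.NS (JointN ND)

/-- the `i`-th digit of `x` after the point in base `b` -/
noncomputable def digit (b : ℕ) (x : ℝ) (i : ℕ) : ℤ := ⌊x * (b : ℝ) ^ i⌋ % (b : ℤ)

/-- the polynomial `s_1 X + s_2 X^2 + ⋯ + s_L X^L` -/
noncomputable def seqPoly (s : ℕ → ℤ) (L : ℕ) : ℚ[X] := ∑ l ∈ Icc 1 L, C (s l : ℚ) * X ^ l

/-- `s` is a sequence of base `b` digits, and among the places `1, …, L` at most `K` are such that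
`s_l` is not the `l`-th digit of `x` -/
def Near (b : ℕ) (x : ℝ) (K L : ℕ) (s : ℕ → ℤ) : Prop :=
  (∀ l, 0 ≤ s l ∧ s l < b) ∧ {l : ℕ | 1 ≤ l ∧ l ≤ L ∧ s l ≠ digit b x l}.ncard ≤ K

/-- there is a nonzero polynomial `P(X, Y)` over `ℚ` of degree `≤ r` in `Y` and `≤ k` in `X` such
that `P(X, S(X))` is divisible by `X^(L+1)`, where `S` is the polynomial of the first `L` terms
of `s` -/
def AlgRelation (s : ℕ → ℤ) (r L k : ℕ) : Prop :=
  ∃ P : ℚ[X][X], P ≠ 0 ∧ P.natDegree ≤ r ∧ (∀ j, (P.coeff j).natDegree ≤ k) ∧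
    X ^ (L + 1) ∣ P.eval (seqPoly s L)

/-- the `K`-error algebraic complexity of degree `r` of the first `L` digits of `x` in base `b`: the
least `k` such that after the change of at most `K` of the digits there is a relation with
coefficients of degree at most `k` -/
noncomputable def complexity (b : ℕ) (x : ℝ) (r K L : ℕ) : ℕ :=
  sInf {k : ℕ | ∃ s, Near b x K L s ∧ AlgRelation s r L k}

/-- `x = α ζ(n)^i π^j` with an algebraic number `α ≠ 0` -/
def Monomial (n : ℕ) (i j : ℤ) (x : ℝ) : Prop :=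
  ∃ α : ℝ, IsAlgebraic ℚ α ∧ α ≠ 0 ∧ x = α * zeta n ^ i * Real.pi ^ j

/-- the joint measure -/
def JointMeasure (u v : ℝ) : Prop :=
  ∀ D : ℕ, ∃ κ c : ℝ, 0 < κ ∧ 0 < c ∧ ∀ P Q : ℤ[X], P ≠ 0 → Q ≠ 0 → P.natDegree ≤ D → Q.natDegree ≤ D →
    ∀ H : ℝ, (∀ j, |((P.coeff j : ℤ) : ℝ)| ≤ H) → (∀ j, |((Q.coeff j : ℤ) : ℝ)| ≤ H) →
      c * H ^ (-κ) ≤ max |aeval u P| |aeval v Q|

theorem jointN_names (N : Finset ℕ) (A : Set ℕ) (hN : ∀ n ∈ (N : Set ℕ) ∪ A, 3 ≤ n)
    (hA : ∀ n ∈ A, AlgOver ⊥ {Real.exp 1} (ratio n)) {ι : Type} (f : ι → Name) (hf : ∀ i, Good N A (f i))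
    (hcard : (N.card + 2 : ℕ) ≤ (Set.range f).encard) : JointN (fun i => num (f i)) := by
  classical
  refine Pool.Agent.V5helper59.NS.jointN_of_nd (fun i => ![Real.exp 1, num (f i)]) (1 : Fin 2) fun D => ?_
  obtain ⟨κ, c, hκ, hc, h⟩ := NearRelations.not_all N A hN hA (Set.range f) (by rintro _ ⟨i, rfl⟩; exact hf i) hcard D
  refine ⟨κ, c, hκ, hc, fun H hH => ?_⟩
  choose Q hQ1 hQ2 hQ3 hQ4 using hH
  have hex : ∀ w : Name, ∃ i : Option ι, w ∈ Set.range f → ∃ j, i = some j ∧ f j = w := by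
    intro w
    by_cases hw : w ∈ Set.range f
    · obtain ⟨i, hi⟩ := hw
      exact ⟨some i, fun _ => ⟨i, rfl, hi⟩⟩
    · exact ⟨none, fun h => absurd h hw⟩
  choose g hg using hex
  obtain ⟨w, hw, hw2⟩ := h H (fun w => (g w).elim 0 Q) (fun w hw => by
    obtain ⟨j, hj, -⟩ := hg w hw
    simp only [hj, Option.elim]
    exact ⟨hQ1 j, hQ2 j, hQ3 j⟩)
  obtain ⟨j, hj, hjw⟩ := hg w hw
  simp only [hj, Option.elim] at hw2
  rw [← hjw] at hw2
  exact absurd hw2 (not_le.2 (hQ4 j))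

theorem pi_mem {n : ℕ} (hn : 2 ≤ n) {i j k l : ℤ} (h : i * l ≠ j * k) {x y : ℝ} (hx : Monomial n i j x)
    (hy : Monomial n k l y) : Real.pi ∈ Pool.Agent.R352.E.clF {x, y} := by
  obtain ⟨α, hα, hα0, rfl⟩ := hx
  obtain ⟨β, hβ, hβ0, rfl⟩ := hy
  set T : Set ℝ := {α * zeta n ^ i * Real.pi ^ j, β * zeta n ^ k * Real.pi ^ l} with hT
  have hz := (zeta_pos hn).ne'
  have hp := Real.pi_ne_zero
  have halg : ∀ a : ℝ, IsAlgebraic ℚ a → a ∈ Pool.Agent.R352.E.clF T := fun a ha =>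
    Pool.Agent.R352.E.mem_clF.2 (ha.tower_top _)
  have h1 : α * zeta n ^ i * Real.pi ^ j ∈ Pool.Agent.R352.E.clF T :=
    Pool.Agent.R352.E.subset_clF _ (by simp [hT])
  have h2 : β * zeta n ^ k * Real.pi ^ l ∈ Pool.Agent.R352.E.clF T :=
    Pool.Agent.R352.E.subset_clF _ (by simp [hT])
  have h3 : zeta n ^ i * Real.pi ^ j ∈ Pool.Agent.R352.E.clF T := by
    have := (Pool.Agent.R352.E.clF T).div_mem h1 (halg α hα)
    rwa [mul_assoc, mul_div_cancel_left₀ _ hα0] at this
  have h4 : zeta n ^ k * Real.pi ^ l ∈ Pool.Agent.R352.E.clF T := by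
    have := (Pool.Agent.R352.E.clF T).div_mem h2 (halg β hβ)
    rwa [mul_assoc, mul_div_cancel_left₀ _ hβ0] at this
  have h5 : Real.pi ^ (j * k - l * i) ∈ Pool.Agent.R352.E.clF T := by
    have h6 := (Pool.Agent.R352.E.clF T).div_mem ((Pool.Agent.R352.E.clF T).zpow_mem h3 k)
      ((Pool.Agent.R352.E.clF T).zpow_mem h4 i)
    have h7 : (zeta n ^ i * Real.pi ^ j) ^ k / (zeta n ^ k * Real.pi ^ l) ^ i = Real.pi ^ (j * k - l * i) := by
      rw [mul_zpow, mul_zpow, ← zpow_mul, ← zpow_mul, ← zpow_mul, ← zpow_mul, zpow_sub₀ hp, mul_comm k i]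
      have : zeta n ^ (i * k) ≠ 0 := zpow_ne_zero _ hz
      field_simp
    rwa [h7] at h6
  have hne : j * k - l * i ≠ 0 := fun h0 => h (by linarith)
  have h8 : Real.pi ^ (j * k - l * i).natAbs ∈ Pool.Agent.R352.E.clF T := by
    rcases Int.natAbs_eq (j * k - l * i) with h9 | h9
    · rw [h9, zpow_natCast] at h5
      exact h5
    · rw [h9, zpow_neg, zpow_natCast] at h5
      have := (Pool.Agent.R352.E.clF T).inv_mem h5
      rwa [inv_inv] at this
  exact Pool.Agent.R352.E.of_pow (Int.natAbs_ne_zero.2 hne) h8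

theorem jointR_monomials {n : ℕ} (hn : 2 ≤ n) {i j k l : ℤ} (h : i * l ≠ j * k) {x y : ℝ} (hx : Monomial n i j x)
    (hy : Monomial n k l y) : Pool.Agent.R356.JointR x y :=
  Pool.Agent.R473.JC.jointR_of_alg Real.pi Pool.Agent.TH456.TM.measT_pi x y
    (Pool.Agent.V5helper59.NS.int_alg (pi_mem hn h hx hy))

/-- `t(n)` is a monomial -/
theorem ratio_monomial {n : ℕ} (hn : 2 ≤ n) : Monomial n (-2) (2 * n) (ratio n) := by
  have h1 := hasSum_zeta_nat (show n ≠ 0 by omega)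
  have h2 : zeta (2 * n) = (-1 : ℝ) ^ (n + 1) * (2 : ℝ) ^ (2 * n - 1) * Real.pi ^ (2 * n) * (_root_.bernoulli (2 * n)) /
      (2 * n).factorial := by
    rw [← h1.tsum_eq, zeta]
    have hs : Summable (fun m : ℕ => 1 / (m : ℝ) ^ (2 * n)) := h1.summable
    rw [← hs.sum_add_tsum_nat_add 1]
    simp only [Finset.sum_range_succ, Finset.sum_range_zero, zero_add]
    have h0 : (0 : ℝ) ^ (2 * n) = 0 := zero_pow (by omega)
    rw [Nat.cast_zero, h0, div_zero, zero_add]
    refine tsum_congr fun m => ?_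
    push_cast
    rfl
  have hz2 := (zeta_pos (show 2 ≤ 2 * n by omega)).ne'
  refine ⟨((-1) ^ (n + 1) * 2 ^ (2 * n - 1) * (_root_.bernoulli (2 * n)) / (2 * n).factorial : ℚ), ?_, ?_, ?_⟩
  · exact isAlgebraic_algebraMap _
  · intro h0
    apply hz2
    have h3 : ((-1 : ℝ) ^ (n + 1) * 2 ^ (2 * n - 1) * (_root_.bernoulli (2 * n)) / (2 * n).factorial) = 0 := by
      exact_mod_cast h0
    rw [h2]
    calc (-1 : ℝ) ^ (n + 1) * (2 : ℝ) ^ (2 * n - 1) * Real.pi ^ (2 * n) * (_root_.bernoulli (2 * n)) / (2 * n).factorial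
        = ((-1 : ℝ) ^ (n + 1) * 2 ^ (2 * n - 1) * (_root_.bernoulli (2 * n)) / (2 * n).factorial) * Real.pi ^ (2 * n) := by ring
      _ = 0 := by rw [h3, zero_mul]
  · rw [ratio, h2]
    have e1 : zeta n ^ (-2 : ℤ) = (zeta n ^ 2)⁻¹ := by
      rw [zpow_neg]
      norm_cast
    have e2 : Real.pi ^ (2 * (n : ℤ)) = Real.pi ^ (2 * n) := by
      norm_cast
    rw [e1, e2]
    push_cast
    ring

/-- see the text at the beginning of the file -/
theorem result :
    (∀ (N : Finset ℕ) (A : Set ℕ), (∀ n ∈ (N : Set ℕ) ∪ A, 3 ≤ n ∧ Odd n) →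
      (∀ n ∈ A, AlgOver ⊥ {Real.exp 1} (ratio n)) →
      -- (1)
      (∀ Ψ : Finset Name, (∀ w ∈ Ψ, Good N A w) → Ψ.card = N.card + 2 → ∀ r : ℕ, ∃ C : ℝ, 1 ≤ C ∧
        ∀ b K L : Name → ℕ, (∀ w ∈ Ψ, 2 ≤ b w) → ∀ Λ : ℝ, 0 ≤ Λ → (∀ w ∈ Ψ, Λ ≤ L w * Real.log (b w)) →
          Λ ≤ C ^ (∑ w ∈ Ψ, K w + 1) *
            ∑ w ∈ Ψ, ((complexity (b w) (num w) r (K w) (L w) : ℝ) + 1) * Real.log (b w)) ∧
      -- (2)
      (∀ E : Finset Name, (∀ w ∈ E, Good N A w) → ∀ r : ℕ, ∃ c : ℝ, 0 < c ∧ ∀ b K L : ℕ, 2 ≤ b →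
        {w | w ∈ E ∧ (complexity b (num w) r K L : ℝ) + 1 < c ^ (K + 1) * L}.ncard ≤ N.card + 1)) ∧
    -- (3)
    (∀ n : ℕ, 3 ≤ n → Odd n → Monomial n (-2) (2 * n) (ratio n) ∧
      ∀ (i j k l : ℤ) (u v : ℝ), i * l ≠ j * k → Monomial n i j u → Monomial n k l v →
        JointMeasure u v ∧ ∀ r : ℕ, ∃ C : ℝ, 1 ≤ C ∧ ∀ b β : ℕ, 2 ≤ b → 2 ≤ β → ∀ K K' L L' : ℕ,
          min (L * Real.log b) (L' * Real.log β) ≤
            C ^ (K + K' + 1) * (((complexity b u r K L : ℝ) + 1) * Real.log b +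
              ((complexity β v r K' L' : ℝ) + 1) * Real.log β)) := by
  classical
  refine ⟨fun N A hN hA => ⟨fun Ψ hΨ hcard r => ?_, fun E hE r => ?_⟩, fun n hn hodd =>
    ⟨ratio_monomial (by omega), fun i j k l u v h hu hv => ⟨?_, fun r => ?_⟩⟩⟩
  · have hne : Nonempty Ψ := by
      rw [← Fintype.card_pos_iff, Fintype.card_coe, hcard]
      omega
    have hJ : JointN (fun w : Ψ => num w.1) := jointN_names N A (fun n hn => (hN n hn).1) hA (fun w : Ψ => w.1)
      (fun w => hΨ w.1 w.2) (by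
        rw [Subtype.range_coe_subtype]
        have : {x : Name | x ∈ Ψ} = (Ψ : Set Name) := rfl
        rw [this, Set.encard_coe_eq_coe_finsetCard, hcard])
    obtain ⟨C, hC, h⟩ := Pool.Agent.V5helper59.NS.multi _ hJ r
    refine ⟨C, hC, fun b K L hb Λ hΛ hL => ?_⟩
    have h1 := h (fun w => b w.1) (fun w => hb w.1 w.2) (fun w => K w.1) (fun w => L w.1) Λ hΛ
      (fun w => hL w.1 w.2)
    rw [Finset.sum_coe_sort Ψ (fun w => K w),
      Finset.sum_coe_sort Ψ (fun w => ((Pool.Agent.R473.JC.complexity (b w) (num w) r (K w) (L w) : ℝ) + 1) *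
        Real.log (b w))] at h1
    exact h1
  · obtain ⟨c, hc, h⟩ := Pool.Agent.V5helper59.NS.exceptions (fun w : E => num w.1) (N.card + 2) (by omega)
      (fun Ψ hΨ => jointN_names N A (fun n hn => (hN n hn).1) hA (fun w : Ψ => w.1.1) (fun w => hE w.1.1 w.1.2) (by
        have h1 : Function.Injective fun w : Ψ => w.1.1 := fun a b hab => Subtype.ext (Subtype.ext hab)
        rw [← Set.image_univ, h1.encard_image, Set.encard_univ, ENat.card_eq_coe_fintype_card, Fintype.card_coe,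
          hΨ])) r
    refine ⟨c, hc, fun b K L hb => ?_⟩
    have h1 := h b K L hb
    have h2 : {w | w ∈ E ∧ (complexity b (num w) r K L : ℝ) + 1 < c ^ (K + 1) * L} =
        Subtype.val '' {w : E | (Pool.Agent.R473.JC.complexity b (num w.1) r K L : ℝ) + 1 < c ^ (K + 1) * L} := by
      ext w
      constructor
      · rintro ⟨h3, h4⟩
        exact ⟨⟨w, h3⟩, h4, rfl⟩
      · rintro ⟨w, h3, rfl⟩
        exact ⟨w.2, h3⟩
    rw [h2, Set.ncard_image_of_injective _ Subtype.val_injective]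
    omega
  · exact jointR_monomials (by omega) h hu hv
  · exact Pool.Agent.R473.JC.pair u v (jointR_monomials (by omega) h hu hv) r

end Pool.Agent.Results.MP_f1a024_nt.DigitComplexity
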