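import Mathlib
import Pool.Agent.Results.MP_e48a95_nt.SeveralBases

set_option autoImplicit false

/-!
# `t(n) = ζ(2n) / ζ(n)²` and `ζ(n) π^j` in independent bases

For an infinite set `S` of integers and a set `A` of bases let `K_A` (`lowField S A`) be the field generated by all
real numbers with `O(m)` different blocks of `m` digits, `m ∈ S`, in some base of `A`. Let `A_i`, `i ∈ I`, be sets of
bases such that the subgroups of the multiplicative group of `ℚ` generated by `A_i` and `A_j` have a trivial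
intersection for `i ≠ j` (for instance `A_i = {b_i}` with pairwise multiplicatively independent `b_i`).

(1) For all but at most one `i ∈ I` the field `K = K_(A_i)` is free: for all `n ≥ 2` at once
* two monomials `α ζ(n)^a π^b`, `β ζ(n)^c π^d` with `a d ≠ b c` (`α`, `β ≠ 0` algebraic over `K`) are never both
  algebraic over `K`;
* at most one of the numbers `t(n)`, `ζ(n) π^j` (`j` an integer, `j ≠ -n`) is algebraic over `K`;
* if `t(n)` is algebraic over `K` (for instance rational) for all `n` in a finite set, then all monomials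
  `α π^a ∏ ζ(n)^(e(n))` in these `ζ(n)` of weight `a + ∑ n e(n) ≠ 0` are transcendental over `K`.

(2) Let `b`, `b'` be multiplicatively independent bases, `N` a finite set of integers `n ≥ 2` and `J` a finite set of
integers. For every `C` and all large `m` there is one base `d ∈ {b, b'}` such that for all `n ∈ N` and `j ∈ J`,
`j ≠ -n`, one of the numbers `t(n)`, `ζ(n) π^j` has more than `C m` different blocks of `m` digits in base `d`.

(3) For finitely many monomials `α π^a ∏ ζ(n)^(e(n))` of weight not zero (`α ≠ 0` real algebraic) in which only `ζ(n)`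
occur for which `t(n)` is algebraic (for instance rational): for every `C` and all large `m` there is one base
`d ∈ {b, b'}` in which all of them have more than `C m` blocks of `m` digits.

(4) So, if `t(n)` is rational (or algebraic) for some `n ≥ 2`, the larger one of the numbers of blocks of `m` digits of
`ζ(n)` in the bases `b` and `b'`, divided by `m`, tends to infinity.
-/

namespace Pool.Agent.Results.MP_f1a024_nt.TwoBases

open Filter
open Pool.Agent.Results.MP_e48a95_nt.RelativeMeasures (zeta)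
open Pool.Agent.Results.MP_e48a95_nt.SeveralBases (blocks lowField group Independent Linked)

/-- `t(n) = ζ(2n) / ζ(n)²` -/
noncomputable def ratio (n : ℕ) : ℝ := zeta (2 * n) / zeta n ^ 2

/-- the monomial `π^a ∏ ζ(n)^(e(n))` -/
noncomputable def mon (a : ℤ) (e : ℕ →₀ ℤ) : ℝ := Real.pi ^ a * e.prod fun n k => zeta n ^ k

/-- the weight `a + ∑ n e(n)` of the monomial -/
noncomputable def weight (a : ℤ) (e : ℕ →₀ ℤ) : ℤ := a + e.sum fun n k => n * k

/-- the three properties of part (1) -/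
def Free (K : Subfield ℝ) : Prop :=
  (∀ n : ℕ, 2 ≤ n → ∀ α β : ℝ, IsAlgebraic K α → IsAlgebraic K β → α ≠ 0 → β ≠ 0 → ∀ a b c d : ℤ,
    a * d ≠ b * c → Transcendental K (α * zeta n ^ a * Real.pi ^ b) ∨
      Transcendental K (β * zeta n ^ c * Real.pi ^ d)) ∧
  (∀ n : ℕ, 2 ≤ n → {x : ℝ | IsAlgebraic K x ∧
    (x = ratio n ∨ ∃ j : ℤ, j ≠ -(n : ℤ) ∧ x = zeta n * Real.pi ^ j)}.Subsingleton) ∧
  ∀ (α : ℝ) (a : ℤ) (e : ℕ →₀ ℤ), IsAlgebraic K α → α ≠ 0 →
    (∀ n ∈ e.support, 2 ≤ n ∧ IsAlgebraic K (ratio n)) → weight a e ≠ 0 → Transcendental K (α * mon a e)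

lemma zeta_pos {s : ℕ} (hs : 2 ≤ s) : 0 < zeta s := by
  have hsum : Summable fun n : ℕ => 1 / ((n : ℝ) + 1) ^ s := by
    have h2 := (summable_nat_add_iff 1).2 (Real.summable_one_div_nat_pow.2 (by omega : 1 < s))
    simpa using h2
  exact hsum.tsum_pos (fun n => by positivity) 0 (by norm_num)

lemma zeta_even {n : ℕ} (hn : 1 ≤ n) : ∃ q : ℚ, zeta (2 * n) = q * Real.pi ^ (2 * n) := by
  have h := hasSum_zeta_nat (k := n) (by omega)
  have e1 := h.summable.tsum_eq_zero_add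
  rw [h.tsum_eq] at e1
  have h0 : (2 * n) ≠ 0 := by omega
  refine ⟨(-1) ^ (n + 1) * 2 ^ (2 * n - 1) * bernoulli (2 * n) / (2 * n).factorial, ?_⟩
  have e2 : zeta (2 * n) = ∑' k : ℕ, 1 / (((k + 1 : ℕ) : ℝ)) ^ (2 * n) := by
    rw [zeta]
    push_cast
    rfl
  rw [e2]
  have e3 : (1 : ℝ) / ((0 : ℕ) : ℝ) ^ (2 * n) = 0 := by simp [h0]
  rw [e3, zero_add] at e1
  rw [← e1]
  push_cast
  ring

section alg

variable {F : Type} [Field F] [Algebra F ℝ]

lemma pi_of_zpow {w : ℤ} (hw : w ≠ 0) (h : Real.pi ^ w ∈ algebraicClosure F ℝ) : IsAlgebraic F Real.pi := by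
  have h3 : Real.pi ^ w.natAbs ∈ algebraicClosure F ℝ := by
    rcases Int.natAbs_eq w with h4 | h4
    · rw [h4, zpow_natCast] at h
      exact h
    · rw [h4, zpow_neg, zpow_natCast] at h
      have h5 := (algebraicClosure F ℝ).inv_mem h
      rwa [inv_inv] at h5
  exact (mem_algebraicClosure_iff.1 h3).of_pow (by omega)

/-- `ζ(n) / π^n` is algebraic if `t(n)` is -/
lemma quot_mem {n : ℕ} (hn : 2 ≤ n) (h : IsAlgebraic F (ratio n)) :
    zeta n * (Real.pi ^ n)⁻¹ ∈ algebraicClosure F ℝ := by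
  have hpi := Real.pi_ne_zero
  have hz := (zeta_pos hn).ne'
  have hz2 := (zeta_pos (show 2 ≤ 2 * n by omega)).ne'
  obtain ⟨q, hq⟩ := zeta_even (show 1 ≤ n by omega)
  have h1 : (zeta n * (Real.pi ^ n)⁻¹) ^ 2 = (q : ℝ) * (ratio n)⁻¹ := by
    rw [ratio, inv_div, mul_pow, inv_pow, ← pow_mul, mul_comm n 2]
    rw [eq_comm, ← div_eq_mul_inv, mul_div_assoc', div_eq_div_iff hz2 (pow_ne_zero _ hpi), hq]
    ring
  have h2 : (zeta n * (Real.pi ^ n)⁻¹) ^ 2 ∈ algebraicClosure F ℝ := by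
    rw [h1]
    exact (algebraicClosure F ℝ).mul_mem (SubfieldClass.ratCast_mem _ q)
      ((algebraicClosure F ℝ).inv_mem (mem_algebraicClosure_iff.2 h))
  exact mem_algebraicClosure_iff.2 ((mem_algebraicClosure_iff.1 h2).of_pow (by norm_num))

lemma mon_eq {a : ℤ} {e : ℕ →₀ ℤ} :
    mon a e = Real.pi ^ weight a e * e.prod fun n k => (zeta n * (Real.pi ^ n)⁻¹) ^ k := by
  have hpi := Real.pi_ne_zero
  have h1 : (e.prod fun n k => zeta n ^ k) =
      (∏ n ∈ e.support, Real.pi ^ ((n : ℤ) * e n)) * e.prod fun n k => (zeta n * (Real.pi ^ n)⁻¹) ^ k := by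
    rw [Finsupp.prod, Finsupp.prod, ← Finset.prod_mul_distrib]
    refine Finset.prod_congr rfl fun n _ => ?_
    rw [mul_zpow, inv_zpow, ← zpow_natCast, ← zpow_mul]
    field_simp
  have h2 : Real.pi ^ (∑ n ∈ e.support, (n : ℤ) * e n) = ∏ n ∈ e.support, Real.pi ^ ((n : ℤ) * e n) := by
    induction e.support using Finset.induction_on with
    | empty => simp
    | insert x s hx ih => rw [Finset.sum_insert hx, Finset.prod_insert hx, zpow_add₀ hpi, ih]
  rw [mon, weight, h1, zpow_add₀ hpi, Finsupp.sum, h2, mul_assoc]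

lemma pi_of_mon {α : ℝ} {a : ℤ} {e : ℕ →₀ ℤ} (hα : IsAlgebraic F α) (hα0 : α ≠ 0)
    (he : ∀ n ∈ e.support, 2 ≤ n ∧ IsAlgebraic F (ratio n)) (hw : weight a e ≠ 0)
    (h : IsAlgebraic F (α * mon a e)) : IsAlgebraic F Real.pi := by
  apply pi_of_zpow hw
  set E := algebraicClosure F ℝ with hE
  have h1 : α * mon a e ∈ E := mem_algebraicClosure_iff.2 h
  have h2 : α ∈ E := mem_algebraicClosure_iff.2 hα
  have h3 : (e.prod fun n k => (zeta n * (Real.pi ^ n)⁻¹) ^ k) ∈ E :=
    prod_mem fun n hn => zpow_mem (quot_mem (he n hn).1 (he n hn).2) _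
  have h4 : (e.prod fun n k => (zeta n * (Real.pi ^ n)⁻¹) ^ k) ≠ 0 := by
    rw [Finsupp.prod, Finset.prod_ne_zero_iff]
    intro n hn
    exact zpow_ne_zero _ (mul_ne_zero (zeta_pos (he n hn).1).ne'
      (inv_ne_zero (pow_ne_zero _ Real.pi_ne_zero)))
  have h5 : Real.pi ^ weight a e = α * mon a e / α / (e.prod fun n k => (zeta n * (Real.pi ^ n)⁻¹) ^ k) := by
    rw [mon_eq, mul_comm α, mul_div_assoc, div_self hα0, mul_one, mul_div_assoc, div_self h4, mul_one]
  rw [h5]
  exact E.div_mem (E.div_mem h1 h2) h3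

lemma pi_of_two {n : ℕ} (hn : 2 ≤ n) {α β : ℝ} (hα : IsAlgebraic F α) (hβ : IsAlgebraic F β) (hα0 : α ≠ 0)
    (hβ0 : β ≠ 0) {a b c d : ℤ} (h : a * d ≠ b * c) (h1 : IsAlgebraic F (α * zeta n ^ a * Real.pi ^ b))
    (h2 : IsAlgebraic F (β * zeta n ^ c * Real.pi ^ d)) : IsAlgebraic F Real.pi := by
  apply pi_of_zpow (w := b * c - a * d) (fun h' => h (by linarith))
  have hpi := Real.pi_ne_zero
  have hz := (zeta_pos hn).ne'
  set E := algebraicClosure F ℝ with hE
  have e1 : zeta n ^ a * Real.pi ^ b ∈ E := by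
    have := E.div_mem (mem_algebraicClosure_iff.2 h1 : _ ∈ E) (mem_algebraicClosure_iff.2 hα : α ∈ E)
    rwa [mul_assoc, mul_div_assoc, mul_comm, div_mul_cancel₀ _ hα0] at this
  have e2 : zeta n ^ c * Real.pi ^ d ∈ E := by
    have := E.div_mem (mem_algebraicClosure_iff.2 h2 : _ ∈ E) (mem_algebraicClosure_iff.2 hβ : β ∈ E)
    rwa [mul_assoc, mul_div_assoc, mul_comm, div_mul_cancel₀ _ hβ0] at this
  have e3 : Real.pi ^ (b * c - a * d) = (zeta n ^ a * Real.pi ^ b) ^ c / (zeta n ^ c * Real.pi ^ d) ^ a := by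
    rw [mul_zpow, mul_zpow, ← zpow_mul, ← zpow_mul, ← zpow_mul, ← zpow_mul, mul_comm c a, mul_comm d a,
      mul_div_mul_left _ _ (zpow_ne_zero _ hz), zpow_sub₀ hpi]
  rw [e3]
  exact E.div_mem (zpow_mem e1 c) (zpow_mem e2 a)

end alg

lemma ratio_eq {n : ℕ} (hn : 2 ≤ n) : ∃ q : ℚ, q ≠ 0 ∧
    ratio n = (q : ℝ) * zeta n ^ (-2 : ℤ) * Real.pi ^ ((2 * n : ℕ) : ℤ) := by
  obtain ⟨q, hq⟩ := zeta_even (show 1 ≤ n by omega)
  refine ⟨q, ?_, ?_⟩
  · rintro rfl
    have := (zeta_pos (show 2 ≤ 2 * n by omega)).ne'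
    rw [hq] at this
    simp at this
  · rw [ratio, hq, zpow_neg, zpow_natCast, div_eq_mul_inv]
    norm_cast
    ring

theorem free_of {K : Subfield ℝ} (hK : Transcendental K Real.pi) : Free K := by
  have h1 : ∀ n : ℕ, 2 ≤ n → ∀ α β : ℝ, IsAlgebraic K α → IsAlgebraic K β → α ≠ 0 → β ≠ 0 →
      ∀ a b c d : ℤ, a * d ≠ b * c → Transcendental K (α * zeta n ^ a * Real.pi ^ b) ∨
      Transcendental K (β * zeta n ^ c * Real.pi ^ d) := by
    intro n hn α β hα hβ hα0 hβ0 a b c d h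
    by_contra hcon
    unfold Transcendental at hcon
    push Not at hcon
    exact hK (pi_of_two hn hα hβ hα0 hβ0 h hcon.1 hcon.2)
  have hone : IsAlgebraic K (1 : ℝ) := isAlgebraic_one
  refine ⟨h1, fun n hn => ?_, fun α a e hα hα0 he hw h => hK (pi_of_mon hα hα0 he hw h)⟩
  obtain ⟨q, hq0, hq⟩ := ratio_eq hn
  have hqa : IsAlgebraic K ((q : ℚ) : ℝ) :=
    mem_algebraicClosure_iff.1 (SubfieldClass.ratCast_mem (algebraicClosure K ℝ) q)
  have hqr : ((q : ℚ) : ℝ) ≠ 0 := by exact_mod_cast hq0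
  have key : IsAlgebraic K (ratio n) → ∀ j : ℤ, j ≠ -(n : ℤ) → ¬ IsAlgebraic K (zeta n * Real.pi ^ j) := by
    intro h2 j hj h3
    rw [hq] at h2
    rcases h1 n hn _ 1 hqa hone hqr one_ne_zero (-2) ((2 * n : ℕ) : ℤ) 1 j (by push_cast; omega) with h | h
    · exact h h2
    · rw [one_mul, zpow_one] at h
      exact h h3
  rintro x ⟨hx, hx'⟩ y ⟨hy, hy'⟩
  rcases hx' with rfl | ⟨i, hi, rfl⟩
  · rcases hy' with rfl | ⟨j, hj, rfl⟩
    · rfl
    · exact absurd hy (key hx j hj)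
  · rcases hy' with rfl | ⟨j, hj, rfl⟩
    · exact absurd hx (key hy i hi)
    · by_contra hne
      have hij : i ≠ j := fun h => hne (by rw [h])
      rcases h1 n hn 1 1 hone hone one_ne_zero one_ne_zero 1 i 1 j (by simpa using hij.symm) with h | h
      · rw [one_mul, zpow_one] at h
        exact h hx
      · rw [one_mul, zpow_one] at h
        exact h hy

/-- two bases, pairs of numbers over which `π` is algebraic -/
theorem pairs {b b' : ℕ} (hb : 2 ≤ b) (hb' : 2 ≤ b') (hbb : Independent b b') (L : Finset (ℝ × ℝ))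
    (hL : ∀ l ∈ L, Linked ℚ Real.pi l.1 l.2) (C : ℝ) : ∀ᶠ m : ℕ in atTop, ∃ d, (d = b ∨ d = b') ∧
      ∀ l ∈ L, C * m < max (blocks d l.1 m : ℝ) (blocks d l.2 m) := by
  classical
  have h := Pool.Agent.Results.MP_e48a95_nt.SeveralBases.digits (I := Fin 2) (b := ![b, b']) (by
      intro i
      fin_cases i
      · exact hb
      · exact hb') (by
      intro i j hij
      fin_cases i <;> fin_cases j
      · exact absurd rfl hij
      · exact hbb
      · exact fun k l h => (hbb l k h.symm).symm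
      · exact absurd rfl hij) (L.image fun l => (Real.pi, l)) (by
      intro l hl
      rw [Finset.mem_image] at hl
      obtain ⟨l', hl', rfl⟩ := hl
      exact ⟨Or.inl rfl, hL l' hl'⟩) (by
      rw [Fintype.card_fin, Finset.image_image]
      have h1 : L.image (Prod.fst ∘ fun l : ℝ × ℝ => (Real.pi, l)) ⊆ {Real.pi} := by
        intro x hx
        rw [Finset.mem_image] at hx
        obtain ⟨l, -, rfl⟩ := hx
        exact Finset.mem_singleton_self _
      have h2 := Finset.card_le_card h1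
      rw [Finset.card_singleton] at h2
      omega) C
  filter_upwards [h] with m hm
  obtain ⟨i, hi⟩ := hm
  refine ⟨![b, b'] i, ?_, fun l hl => hi (Real.pi, l) (Finset.mem_image_of_mem _ hl)⟩
  fin_cases i
  · exact Or.inl rfl
  · exact Or.inr rfl

lemma linked_ratio {n : ℕ} (hn : 2 ≤ n) {j : ℤ} (hj : j ≠ -(n : ℤ)) :
    Linked ℚ Real.pi (ratio n) (zeta n * Real.pi ^ j) := by
  set F := IntermediateField.adjoin ℚ ({ratio n, zeta n * Real.pi ^ j} : Set ℝ) with hF
  have hu : ratio n ∈ F := IntermediateField.subset_adjoin ℚ _ (Or.inl rfl)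
  have hv : zeta n * Real.pi ^ j ∈ F := IntermediateField.subset_adjoin ℚ _ (Or.inr rfl)
  have h1 : IsAlgebraic F (ratio n) := isAlgebraic_algebraMap (⟨_, hu⟩ : F)
  have h2 : IsAlgebraic F (zeta n * Real.pi ^ j) := isAlgebraic_algebraMap (⟨_, hv⟩ : F)
  refine pi_of_mon (F := F) (α := 1) (a := j) (e := Finsupp.single n 1) isAlgebraic_one one_ne_zero ?_ ?_ ?_
  · intro k hk
    have hk' : k = n := by
      by_contra hne
      rw [Finsupp.mem_support_iff, Finsupp.single_apply, if_neg (Ne.symm hne)] at hk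
      exact hk rfl
    rw [hk']
    exact ⟨hn, h1⟩
  · rw [weight, Finsupp.sum_single_index (by simp)]
    omega
  · rw [mon, Finsupp.prod_single_index (by simp), zpow_one, one_mul, mul_comm]
    exact h2

lemma linked_mon {α : ℝ} {a : ℤ} {e : ℕ →₀ ℤ} (hα : IsAlgebraic ℚ α) (hα0 : α ≠ 0)
    (he : ∀ n ∈ e.support, 2 ≤ n ∧ IsAlgebraic ℚ (ratio n)) (hw : weight a e ≠ 0) :
    Linked ℚ Real.pi (α * mon a e) (α * mon a e) := by
  set F := IntermediateField.adjoin ℚ ({α * mon a e, α * mon a e} : Set ℝ) with hF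
  have hu : α * mon a e ∈ F := IntermediateField.subset_adjoin ℚ _ (Or.inl rfl)
  have h1 : IsAlgebraic F (α * mon a e) := isAlgebraic_algebraMap (⟨_, hu⟩ : F)
  exact pi_of_mon (F := F) (hα.tower_top F) hα0 (fun n hn => ⟨(he n hn).1, (he n hn).2.tower_top F⟩) hw h1

theorem monomials {b b' : ℕ} (hb : 2 ≤ b) (hb' : 2 ≤ b') (hbb : Independent b b')
    (L : Finset (ℝ × ℤ × (ℕ →₀ ℤ))) (hL : ∀ l ∈ L, IsAlgebraic ℚ l.1 ∧ l.1 ≠ 0 ∧ weight l.2.1 l.2.2 ≠ 0 ∧
      ∀ n ∈ l.2.2.support, 2 ≤ n ∧ IsAlgebraic ℚ (ratio n)) (C : ℝ) :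
    ∀ᶠ m : ℕ in atTop, ∃ d, (d = b ∨ d = b') ∧ ∀ l ∈ L, C * m < (blocks d (l.1 * mon l.2.1 l.2.2) m : ℝ) := by
  classical
  have h := pairs hb hb' hbb (L.image fun l => (l.1 * mon l.2.1 l.2.2, l.1 * mon l.2.1 l.2.2)) (by
      intro l hl
      rw [Finset.mem_image] at hl
      obtain ⟨l', hl', rfl⟩ := hl
      obtain ⟨h1, h2, h3, h4⟩ := hL l' hl'
      exact linked_mon h1 h2 h4 h3) C
  filter_upwards [h] with m hm
  obtain ⟨d, hd, hm⟩ := hm
  refine ⟨d, hd, fun l hl => ?_⟩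
  have h1 := hm _ (Finset.mem_image_of_mem _ hl)
  rwa [max_self] at h1

/-- see the text at the beginning of the file -/
theorem result :
    -- (1)
    (∀ S : Set ℕ, S.Infinite → ∀ (I : Type) (A : I → Set ℕ), (∀ i, ∀ b ∈ A i, 2 ≤ b) →
      (∀ i j, i ≠ j → group (A i) ⊓ group (A j) = ⊥) → {i | ¬ Free (lowField S (A i))}.Subsingleton) ∧
    ∀ b b' : ℕ, 2 ≤ b → 2 ≤ b' → Independent b b' →
      -- (1), single bases
      group {b} ⊓ group {b'} = ⊥ ∧
      -- (2)
      (∀ (N : Finset ℕ) (J : Finset ℤ), (∀ n ∈ N, 2 ≤ n) → ∀ C : ℝ, ∀ᶠ m : ℕ in atTop, ∃ d, (d = b ∨ d = b') ∧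
        ∀ n ∈ N, ∀ j ∈ J, j ≠ -(n : ℤ) →
          C * m < max (blocks d (ratio n) m : ℝ) (blocks d (zeta n * Real.pi ^ j) m)) ∧
      -- (3)
      (∀ L : Finset (ℝ × ℤ × (ℕ →₀ ℤ)), (∀ l ∈ L, IsAlgebraic ℚ l.1 ∧ l.1 ≠ 0 ∧ weight l.2.1 l.2.2 ≠ 0 ∧
        ∀ n ∈ l.2.2.support, 2 ≤ n ∧ IsAlgebraic ℚ (ratio n)) → ∀ C : ℝ, ∀ᶠ m : ℕ in atTop,
          ∃ d, (d = b ∨ d = b') ∧ ∀ l ∈ L, C * m < (blocks d (l.1 * mon l.2.1 l.2.2) m : ℝ)) ∧
      -- (4)
      ∀ n : ℕ, 2 ≤ n → IsAlgebraic ℚ (ratio n) →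
        Tendsto (fun m : ℕ => ((max (blocks b (zeta n) m) (blocks b' (zeta n) m) : ℕ) : ℝ) / m) atTop atTop := by
  classical
  refine ⟨fun S hS I A hA hAA i hi j hj => ?_, fun b b' hb hb' hbb =>
    ⟨Pool.Agent.TH796.AL.Ai.group_inf hb hb' hbb, fun N J hN C => ?_, fun L hL C => monomials hb hb' hbb L hL C,
      fun n hn hr => ?_⟩⟩
  · by_contra hne
    rcases Pool.Agent.Results.MP_e48a95_nt.SeveralBases.pair
      Pool.Agent.Results.MP_e48a95_nt.SeveralBases.special_pi hS (hA i) (hA j) (hAA i j hne) with h | h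
    · exact hi (free_of h)
    · exact hj (free_of h)
  · have h := pairs hb hb' hbb (((N ×ˢ J).filter fun p => p.2 ≠ -(p.1 : ℤ)).image
      fun p => (ratio p.1, zeta p.1 * Real.pi ^ p.2)) (by
        intro l hl
        rw [Finset.mem_image] at hl
        obtain ⟨p, hp, rfl⟩ := hl
        rw [Finset.mem_filter, Finset.mem_product] at hp
        exact linked_ratio (hN _ hp.1.1) hp.2) C
    filter_upwards [h] with m hm
    obtain ⟨d, hd, hm⟩ := hm
    refine ⟨d, hd, fun n hn j hj hnj => ?_⟩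
    have hmem : (n, j) ∈ (N ×ˢ J).filter fun p => p.2 ≠ -(p.1 : ℤ) :=
      Finset.mem_filter.2 ⟨Finset.mem_product.2 ⟨hn, hj⟩, hnj⟩
    have h2 := hm (ratio n, zeta n * Real.pi ^ j) (Finset.mem_image.2 ⟨(n, j), hmem, rfl⟩)
    exact h2
  · rw [tendsto_atTop]
    intro C
    have hmon : (1 : ℝ) * mon 0 (Finsupp.single n 1) = zeta n := by
      rw [mon, Finsupp.prod_single_index (by simp), zpow_one, zpow_zero, one_mul, one_mul]
    have h := monomials hb hb' hbb {((1 : ℝ), (0 : ℤ), Finsupp.single n (1 : ℤ))} (by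
        intro l hl
        rw [Finset.mem_singleton] at hl
        subst hl
        refine ⟨isAlgebraic_one, one_ne_zero, ?_, ?_⟩
        · show weight 0 (Finsupp.single n 1) ≠ 0
          rw [weight, Finsupp.sum_single_index (by simp)]
          omega
        · intro k hk
          have hk' : k = n := by
            by_contra hne
            rw [Finsupp.mem_support_iff, Finsupp.single_apply, if_neg (Ne.symm hne)] at hk
            exact hk rfl
          rw [hk']
          exact ⟨hn, hr⟩) C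
    filter_upwards [h, eventually_ge_atTop 1] with m hm hm1
    have hm0 : (0 : ℝ) < m := by exact_mod_cast hm1
    rw [le_div_iff₀ hm0]
    obtain ⟨d, hd, hm⟩ := hm
    have h1 := hm ((1 : ℝ), (0 : ℤ), Finsupp.single n (1 : ℤ)) (Finset.mem_singleton_self _)
    dsimp only at h1
    rw [hmon] at h1
    refine h1.le.trans ?_
    have h2 : blocks d (zeta n) m ≤ max (blocks b (zeta n) m) (blocks b' (zeta n) m) := by
      rcases hd with rfl | rfl
      · exact le_max_left _ _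
      · exact le_max_right _ _
    exact_mod_cast h2

end Pool.Agent.Results.MP_f1a024_nt.TwoBases
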